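import Pool.Agent.R318.SU.Ind

/-! # The values of a random polynomial modulo different irreducible polynomials are independent -/

set_option autoImplicit false
set_option linter.unusedSectionVars false

namespace Pool.Agent.R318.LP

open Finset Polynomial Pool.Agent.R318.ST Pool.Agent.R318.SU

section

variable {F : Type} [Field F] [Fintype F] [DecidableEq F]

lemma evp_degree {d : ℕ} (u : Fin d → F) : (evp u).degree < d := by
  rw [degree_lt_iff_coeff_zero]
  intro m hm
  unfold evp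
  rw [finsetSum_coeff]
  apply sum_eq_zero
  intro j _
  rw [coeff_C_mul_X_pow, if_neg]
  have := j.2
  omega

lemma evp_coeff' {d : ℕ} (f : F[X]) (h : f.degree < d) : evp (fun j : Fin d => f.coeff j) = f := by
  ext i
  by_cases hi : i < d
  · exact coeff_evp (fun j : Fin d => f.coeff j) ⟨i, hi⟩
  · push Not at hi
    rw [(degree_lt_iff_coeff_zero _ _).1 (evp_degree _) i hi, (degree_lt_iff_coeff_zero _ _).1 h i hi]

/-- the residue modulo `A` -/
noncomputable def res (d : ℕ) (A : F[X]) : (Fin d → F) →+ (Fin A.natDegree → F) where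
  toFun u := fun i => ((evp u) %ₘ A).coeff i
  map_zero' := by
    have : evp (0 : Fin d → F) = 0 := by
      unfold evp
      simp
    rw [this, zero_modByMonic]
    rfl
  map_add' u v := by
    rw [evp_add, add_modByMonic]
    funext i
    rw [Pi.add_apply, coeff_add]

lemma res_eq {d : ℕ} {A : F[X]} (hA : A.Monic) {u v : Fin d → F} (h : res d A u = res d A v) : A ∣ evp u - evp v := by
  rw [← modByMonic_eq_zero_iff_dvd hA, sub_modByMonic, sub_eq_zero]
  ext i
  by_cases hi : i < A.natDegree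
  · exact congrFun h ⟨i, hi⟩
  · push Not at hi
    have h1 : ∀ f : F[X], (f %ₘ A).coeff i = 0 := by
      intro f
      apply coeff_eq_zero_of_degree_lt
      refine (degree_modByMonic_lt f hA).trans_le ?_
      rw [degree_eq_natDegree hA.ne_zero]
      exact_mod_cast hi
    rw [h1, h1]

theorem indep_mod (d : ℕ) (A B : F[X]) (hA : A.Monic) (hB : B.Monic) (hAB : IsCoprime A B)
    (hd : A.natDegree + B.natDegree ≤ d) (Φ Ψ : (Fin d → F) → ℝ)
    (h1 : ∀ u v, A ∣ evp u - evp v → Φ u = Φ v) (h2 : ∀ u v, B ∣ evp u - evp v → Ψ u = Ψ v) :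
    av (fun u => Φ u * Ψ u) = av Φ * av Ψ := by
  apply av_indep (res d A) (res d B) _ Φ Ψ (fun u v h => h1 u v (res_eq hA h)) (fun u v h => h2 u v (res_eq hB h))
  intro c c'
  obtain ⟨s, t, hst⟩ := hAB
  obtain ⟨R, hR⟩ : ∃ R, R = evp c * (t * B) + evp c' * (s * A) := ⟨_, rfl⟩
  have hM : (A * B).Monic := hA.mul hB
  obtain ⟨f, hf⟩ : ∃ f, f = R %ₘ (A * B) := ⟨_, rfl⟩
  have hfd : f.degree < d := by
    rw [hf]
    refine (degree_modByMonic_lt R hM).trans_le ?_
    rw [degree_eq_natDegree hM.ne_zero, hA.natDegree_mul hB]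
    exact_mod_cast hd
  have hfR : A * B ∣ f - R := by
    rw [hf, ← modByMonic_eq_zero_iff_dvd hM, sub_modByMonic, (modByMonic_eq_self_iff hM).2 (degree_modByMonic_lt R hM), sub_self]
  have key : ∀ (P : F[X]), P.Monic → ∀ c : Fin P.natDegree → F, P ∣ f - evp c → ∀ i : Fin P.natDegree, (f %ₘ P).coeff i = c i := by
    intro P hP c hc i
    rw [← modByMonic_eq_zero_iff_dvd hP, sub_modByMonic, sub_eq_zero] at hc
    have h3 : (evp c).degree < P.degree := by
      rw [degree_eq_natDegree hP.ne_zero]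
      exact evp_degree c
    rw [hc, (modByMonic_eq_self_iff hP).2 h3, coeff_evp]
  refine ⟨fun j => f.coeff j, ?_, ?_⟩
  · funext i
    change ((evp (fun j : Fin d => f.coeff j)) %ₘ A).coeff i = c i
    rw [evp_coeff' f hfd]
    apply key A hA
    have h4 : f - evp c = (f - R) + A * (s * (evp c' - evp c)) := by
      have h5 : t * B = 1 - s * A := by rw [← hst]; ring
      rw [hR, h5]
      ring
    rw [h4]
    exact dvd_add ((dvd_mul_right A B).trans hfR) (dvd_mul_right _ _)
  · funext i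
    change ((evp (fun j : Fin d => f.coeff j)) %ₘ B).coeff i = c' i
    rw [evp_coeff' f hfd]
    apply key B hB
    have h4 : f - evp c' = (f - R) + B * (t * (evp c - evp c')) := by
      have h5 : s * A = 1 - t * B := by rw [← hst]; ring
      rw [hR, h5]
      ring
    rw [h4]
    exact dvd_add ((dvd_mul_left B A).trans hfR) (dvd_mul_right _ _)

/-- monic irreducible polynomials in `S` -/
def MI (S : Set F[X]) (s : Finset F[X]) : Prop := ∀ P ∈ s, P ∈ S ∧ P.Monic ∧ Irreducible P

lemma coprime_MI {P Q : F[X]} (hP : P.Monic) (hQ : Q.Monic) (hP' : Irreducible P) (hQ' : Irreducible Q) (h : P ≠ Q) :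
    IsCoprime P Q := by
  rw [hP'.coprime_iff_not_dvd]
  intro hd
  exact h (eq_of_monic_of_associated hP hQ ((hP'.dvd_irreducible_iff_associated hQ').1 hd))

theorem indep_sets (d : ℕ) (S S' : Set F[X]) (s s' : Finset F[X]) (hs : MI S s) (hs' : MI S' s') (hS : Disjoint S S')
    (hd : ∑ P ∈ s, P.natDegree + ∑ P ∈ s', P.natDegree ≤ d) (Φ Ψ : (Fin d → F) → ℝ)
    (h1 : ∀ u v, (∀ P ∈ s, P ∣ evp u - evp v) → Φ u = Φ v) (h2 : ∀ u v, (∀ P ∈ s', P ∣ evp u - evp v) → Ψ u = Ψ v) :
    av (fun u => Φ u * Ψ u) = av Φ * av Ψ := by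
  have m1 : (∏ P ∈ s, P).Monic := monic_prod_of_monic _ _ fun P hP => (hs P hP).2.1
  have m2 : (∏ P ∈ s', P).Monic := monic_prod_of_monic _ _ fun P hP => (hs' P hP).2.1
  apply indep_mod d (∏ P ∈ s, P) (∏ P ∈ s', P) m1 m2
  · apply IsCoprime.prod_left
    intro P hP
    apply IsCoprime.prod_right
    intro Q hQ
    apply coprime_MI (hs P hP).2.1 (hs' Q hQ).2.1 (hs P hP).2.2 (hs' Q hQ).2.2
    rintro rfl
    exact Set.disjoint_left.1 hS (hs P hP).1 (hs' P hQ).1
  · rw [natDegree_prod_of_monic _ _ fun P hP => (hs P hP).2.1, natDegree_prod_of_monic _ _ fun P hP => (hs' P hP).2.1]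
    exact hd
  · intro u v h
    exact h1 u v fun P hP => (dvd_prod_of_mem (fun P => P) hP).trans h
  · intro u v h
    exact h2 u v fun P hP => (dvd_prod_of_mem (fun P => P) hP).trans h

/-- functions of the values at some points in `S` of total degree at most `D` -/
def elem (d : ℕ) (S : Set F[X]) (D : ℕ) : Set ((Fin d → F) → ℝ) :=
  {Φ | ∃ s : Finset F[X], MI S s ∧ ∑ P ∈ s, P.natDegree ≤ D ∧ ∀ u v, (∀ P ∈ s, P ∣ evp u - evp v) → Φ u = Φ v}

/-- sums of such functions -/
def Dep (d : ℕ) (S : Set F[X]) (D : ℕ) : AddSubmonoid ((Fin d → F) → ℝ) := AddSubmonoid.closure (elem d S D)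

lemma elem_mul {d : ℕ} {S S' : Set F[X]} {D D' : ℕ} {Φ Ψ : (Fin d → F) → ℝ} (h : Φ ∈ elem d S D) (h' : Ψ ∈ elem d S' D') :
    Φ * Ψ ∈ elem d (S ∪ S') (D + D') := by
  classical
  obtain ⟨s, hs, hd, h1⟩ := h
  obtain ⟨s', hs', hd', h1'⟩ := h'
  refine ⟨s ∪ s', ?_, ?_, ?_⟩
  · intro P hP
    rcases mem_union.1 hP with hP | hP
    · exact ⟨Or.inl (hs P hP).1, (hs P hP).2⟩
    · exact ⟨Or.inr (hs' P hP).1, (hs' P hP).2⟩
  · have := sum_union_inter (s₁ := s) (s₂ := s') (f := fun P : F[X] => P.natDegree)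
    omega
  · intro u v h
    rw [Pi.mul_apply, Pi.mul_apply, h1 u v fun P hP => h P (mem_union_left _ hP), h1' u v fun P hP => h P (mem_union_right _ hP)]

lemma dep_mul {d : ℕ} {S S' : Set F[X]} {D D' : ℕ} {Φ Ψ : (Fin d → F) → ℝ} (h : Φ ∈ Dep d S D) (h' : Ψ ∈ Dep d S' D') :
    Φ * Ψ ∈ Dep d (S ∪ S') (D + D') := by
  unfold Dep at h
  induction h using AddSubmonoid.closure_induction with
  | mem x hx =>
    unfold Dep at h'
    induction h' using AddSubmonoid.closure_induction with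
    | mem y hy => exact AddSubmonoid.subset_closure (elem_mul hx hy)
    | zero => rw [mul_zero]; exact zero_mem _
    | add y z _ _ hy hz => rw [mul_add]; exact add_mem hy hz
  | zero => rw [zero_mul]; exact zero_mem _
  | add x y _ _ hx hy => rw [add_mul]; exact add_mem hx hy

lemma dep_mono {d : ℕ} {S S' : Set F[X]} {D D' : ℕ} (hS : S ⊆ S') (hD : D ≤ D') : Dep (F := F) d S D ≤ Dep d S' D' := by
  apply AddSubmonoid.closure_mono
  rintro Φ ⟨s, hs, hd, h⟩
  exact ⟨s, fun P hP => ⟨hS (hs P hP).1, (hs P hP).2⟩, hd.trans hD, h⟩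

lemma dep_const {d : ℕ} (S : Set F[X]) (D : ℕ) (c : ℝ) : (fun _ => c) ∈ Dep (F := F) d S D := by
  apply AddSubmonoid.subset_closure
  exact ⟨∅, fun P hP => absurd hP (notMem_empty P), by simp, fun _ _ _ => rfl⟩

lemma dep_pow {d : ℕ} {S : Set F[X]} {D : ℕ} {Φ : (Fin d → F) → ℝ} (h : Φ ∈ Dep d S D) (m : ℕ) : Φ ^ m ∈ Dep d S (m * D) := by
  induction m with
  | zero =>
    rw [pow_zero]
    exact dep_const S _ 1
  | succ m ih =>
    rw [pow_succ]
    have := dep_mul ih h
    rw [Set.union_self] at this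
    rw [add_mul, one_mul]
    exact this

lemma dep_sum {d : ℕ} {S : Set F[X]} {D : ℕ} {ι : Type} (t : Finset ι) (Φ : ι → (Fin d → F) → ℝ) (h : ∀ i ∈ t, Φ i ∈ Dep d S D) :
    (fun u => ∑ i ∈ t, Φ i u) ∈ Dep d S D := by
  have : (fun u => ∑ i ∈ t, Φ i u) = ∑ i ∈ t, Φ i := by
    funext u
    rw [Finset.sum_apply]
  rw [this]
  exact sum_mem h

theorem dep_factor {d : ℕ} {S S' : Set F[X]} {D D' : ℕ} {Φ Ψ : (Fin d → F) → ℝ} (h : Φ ∈ Dep d S D) (h' : Ψ ∈ Dep d S' D')
    (hS : Disjoint S S') (hd : D + D' ≤ d) : av (fun u => Φ u * Ψ u) = av Φ * av Ψ := by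
  have av0 : av (fun _ : Fin d → F => (0 : ℝ)) = 0 := by
    unfold av
    rw [sum_const_zero, zero_div]
  unfold Dep at h
  induction h using AddSubmonoid.closure_induction with
  | mem x hx =>
    unfold Dep at h'
    induction h' using AddSubmonoid.closure_induction with
    | mem y hy =>
      obtain ⟨s, hs, hd1, h1⟩ := hx
      obtain ⟨s', hs', hd2, h2⟩ := hy
      exact indep_sets d S S' s s' hs hs' hS (by omega) x y h1 h2
    | zero =>
      simp only [Pi.zero_apply, mul_zero]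
      rw [av0]
      have : av (0 : (Fin d → F) → ℝ) = 0 := av0
      rw [this, mul_zero]
    | add y z _ _ hy hz =>
      simp only [Pi.add_apply, mul_add]
      rw [av_add, hy, hz]
      have : av (y + z) = av y + av z := av_add y z
      rw [this, mul_add]
  | zero =>
    simp only [Pi.zero_apply, zero_mul]
    rw [av0]
    have : av (0 : (Fin d → F) → ℝ) = 0 := av0
    rw [this, zero_mul]
  | add x y _ _ hx hy =>
    simp only [Pi.add_apply, add_mul]
    rw [av_add, hx, hy]
    have : av (x + y) = av x + av y := av_add x y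
    rw [this, add_mul]

/-- the joint moments are the products of the moments -/
theorem dep_joint {d : ℕ} (S : ℕ → Set F[X]) (hS : ∀ i j, i ≠ j → Disjoint (S i) (S j)) (Φ : ℕ → (Fin d → F) → ℝ)
    (D e : ℕ → ℕ) (J : Finset ℕ) (hΦ : ∀ k ∈ J, Φ k ∈ Dep d (S k) (D k)) (hd : ∑ k ∈ J, e k * D k ≤ d) :
    (∏ k ∈ J, Φ k ^ e k) ∈ Dep d (⋃ k ∈ J, S k) (∑ k ∈ J, e k * D k) ∧
      av (fun u => ∏ k ∈ J, Φ k u ^ e k) = ∏ k ∈ J, av (fun u => Φ k u ^ e k) := by
  classical
  induction J using Finset.induction_on with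
  | empty =>
    refine ⟨?_, ?_⟩
    · rw [prod_empty]
      exact dep_const _ _ 1
    · simp only [prod_empty]
      exact av_one
  | insert a J ha ih =>
    rw [sum_insert ha] at hd
    obtain ⟨h1, h2⟩ := ih (fun k hk => hΦ k (mem_insert_of_mem hk)) (by omega)
    have h3 := dep_pow (hΦ a (mem_insert_self a J)) (e a)
    refine ⟨?_, ?_⟩
    · rw [prod_insert ha, sum_insert ha]
      have h4 := dep_mul h3 h1
      apply dep_mono _ le_rfl h4
      rw [set_biUnion_insert]
    · simp only [prod_insert ha]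
      rw [← h2]
      have h5 : Disjoint (S a) (⋃ k ∈ J, S k) := by
        rw [Set.disjoint_iUnion₂_right]
        intro k hk
        apply hS
        rintro rfl
        exact ha hk
      have h6 := dep_factor h3 h1 h5 (by omega)
      simp only [Pi.pow_apply] at h6
      have h7 : ∀ u, (∏ k ∈ J, Φ k ^ e k) u = ∏ k ∈ J, Φ k u ^ e k := by
        intro u
        rw [prod_apply]
        rfl
      simp only [h7] at h6
      have h8 : av (Φ a ^ e a) = av (fun u => Φ a u ^ e a) := rfl
      have h9 : av (∏ k ∈ J, Φ k ^ e k) = av (fun u => ∏ k ∈ J, Φ k u ^ e k) := congrArg av (funext h7)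
      rw [h8, h9] at h6
      exact h6

end

end Pool.Agent.R318.LP
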