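import Pool.Agent.R318.LP.A
import Pool.Agent.R318.SU.Bad

/-! # The points of degree `k` of the line over the field with `p` elements -/

set_option autoImplicit false
set_option linter.unusedSectionVars false

namespace Pool.Agent.R318.LP

open Finset Polynomial Pool.Agent.R318.ST Pool.Agent.R318.SU

section

variable {p : ℕ} [hpF : Fact p.Prime] {K : Type} [Field K] [Fintype K] [DecidableEq K] [Algebra (ZMod p) K]

/-- the minimal polynomial over the prime field -/
noncomputable def mp (p : ℕ) [Fact p.Prime] {K : Type} [Field K] [Algebra (ZMod p) K] (θ : K) : (ZMod p)[X] := minpoly (ZMod p) θ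

lemma isInt (θ : K) : IsIntegral (ZMod p) θ := by
  have : Module.Finite (ZMod p) K := Module.Finite.of_finite
  exact Algebra.IsIntegral.isIntegral θ

lemma mp_irr (θ : K) : Irreducible (mp p θ) := minpoly.irreducible (isInt θ)

lemma mp_monic (θ : K) : (mp p θ).Monic := minpoly.monic (isInt θ)

lemma mp_pos (θ : K) : 1 ≤ (mp p θ).natDegree := minpoly.natDegree_pos (isInt θ)

lemma deg_dvd_iff (θ : K) (m : ℕ) : (mp p θ).natDegree ∣ m ↔ θ ^ p ^ m = θ := by
  rw [(mp_irr θ).natDegree_dvd_iff_dvd_X_pow_card_pow_sub_X, Nat.card_zmod]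
  unfold mp
  rw [minpoly.dvd_iff, map_sub, map_pow, aeval_X, sub_eq_zero]

variable (p K) in
/-- the elements of degree `k` -/
noncomputable def gen (k : ℕ) : Finset K := univ.filter (fun θ => (mp p θ).natDegree = k)

variable (p K) in
/-- the points of degree `k` -/
noncomputable def Pk (k : ℕ) : Finset (ZMod p)[X] := (gen p K k).image (mp p)

open Classical in
variable (K) in
/-- a root of a point -/
noncomputable def rep (P : (ZMod p)[X]) : K := if h : ∃ θ : K, mp p θ = P then h.choose else 0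

lemma rep_mp {k : ℕ} {P : (ZMod p)[X]} (h : P ∈ Pk p K k) : mp p (rep K P) = P := by
  unfold Pk at h
  rw [mem_image] at h
  obtain ⟨θ, _, h⟩ := h
  have hex : ∃ θ : K, mp p θ = P := ⟨θ, h⟩
  unfold rep
  rw [dif_pos hex]
  exact hex.choose_spec

lemma Pk_deg {k : ℕ} {P : (ZMod p)[X]} (h : P ∈ Pk p K k) : P.natDegree = k ∧ P.Monic ∧ Irreducible P := by
  unfold Pk at h
  rw [mem_image] at h
  obtain ⟨θ, hθ, rfl⟩ := h
  exact ⟨(mem_filter.1 hθ).2, mp_monic θ, mp_irr θ⟩

lemma Pk_elem {k d : ℕ} {P : (ZMod p)[X]} (h : P ∈ Pk p K k) (ψ : K → ℝ) :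
    (fun u : Fin d → ZMod p => ψ (aeval (rep K P) (evp u))) ∈ elem d {P} k := by
  obtain ⟨h1, h2, h3⟩ := Pk_deg h
  refine ⟨{P}, ?_, by rw [sum_singleton, h1], ?_⟩
  · intro Q hQ
    rw [mem_singleton] at hQ
    subst hQ
    exact ⟨rfl, h2, h3⟩
  · intro u v huv
    have h4 := huv P (mem_singleton_self P)
    have h5 : aeval (rep K P) (evp u - evp v) = 0 := by
      obtain ⟨Q, hQ⟩ := h4
      have h6 : aeval (rep K P) P = 0 := by
        conv_lhs => rw [← rep_mp h]
        unfold mp
        have h7 := rep_mp h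
        unfold mp at h7
        rw [h7]
        have := minpoly.aeval (ZMod p) (rep K P)
        rwa [h7] at this
      rw [hQ, map_mul, h6, zero_mul]
    rw [map_sub, sub_eq_zero] at h5
    simp only [h5]

lemma chi_aut (σ : K ≃ₐ[ZMod p] K) (y : K) : chi (σ y) = chi y := by
  unfold chi
  congr 1
  by_cases h : y = 0
  · rw [h, map_zero]
  · have h' : σ y ≠ 0 := by
      intro h1
      exact h (σ.injective (by rw [h1, map_zero]))
    have h1 : IsSquare (σ y) ↔ IsSquare y := by
      constructor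
      · rintro ⟨z, hz⟩
        refine ⟨σ.symm z, ?_⟩
        rw [← map_mul, ← hz, AlgEquiv.symm_apply_apply]
      · rintro ⟨z, hz⟩
        exact ⟨σ z, by rw [hz, map_mul]⟩
    by_cases h2 : IsSquare y
    · rw [(quadraticChar_one_iff_isSquare h).2 h2, (quadraticChar_one_iff_isSquare h').2 (h1.2 h2)]
    · have h3 := (quadraticChar_dichotomy h).resolve_left (fun h4 => h2 ((quadraticChar_one_iff_isSquare h).1 h4))
      have h4 := (quadraticChar_dichotomy h').resolve_left (fun h4 => h2 (h1.1 ((quadraticChar_one_iff_isSquare h').1 h4)))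
      rw [h3, h4]

lemma chi_conj' {θ θ' : K} (h : mp p θ = mp p θ') (f : (ZMod p)[X]) : chi (aeval θ f) = chi (aeval θ' f) := by
  have h1 : IsConjRoot (ZMod p) θ θ' := h
  obtain ⟨σ, hσ⟩ := h1.exists_algEquiv
  rw [← hσ, ← chi_aut σ (aeval θ' f)]
  congr 1
  exact (Polynomial.aeval_algHom_apply (σ : K →ₐ[ZMod p] K) θ' f)

lemma fiber_card {k : ℕ} {P : (ZMod p)[X]} (h : P ∈ Pk p K k) : ((gen p K k).filter (fun θ => mp p θ = P)).card = k := by
  classical
  have h1 := rep_mp h
  have h2 := Pk_deg h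
  have h3 : (P.rootSet K).toFinset = (gen p K k).filter (fun θ => mp p θ = P) := by
    ext θ
    rw [Set.mem_toFinset, mem_filter]
    have h4 := isConjRoot_iff_mem_minpoly_rootSet (S := K) (isInt (p := p) (rep K P)) (y := θ)
    unfold mp at h1
    rw [h1] at h4
    rw [← h4]
    unfold IsConjRoot mp
    rw [h1]
    constructor
    · intro h5
      refine ⟨?_, h5.symm⟩
      rw [gen, mem_filter]
      refine ⟨mem_univ _, ?_⟩
      unfold mp
      rw [← h5]
      exact h2.1
    · rintro ⟨_, h5⟩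
      exact h5.symm
  rw [← h3, Set.toFinset_card]
  have hsep : P.Separable := by
    have := Algebra.IsSeparable.isSeparable (ZMod p) (rep K P)
    unfold IsSeparable at this
    unfold mp at h1
    rwa [h1] at this
  have hspl : (P.map (algebraMap (ZMod p) K)).Splits := by
    have := Normal.splits (inferInstance : Normal (ZMod p) K) (rep K P)
    unfold mp at h1
    rwa [h1] at this
  rw [card_rootSet_eq_natDegree hsep hspl, h2.1]

lemma sum_gen {k : ℕ} (F : K → ℝ) (hF : ∀ θ θ' : K, mp p θ = mp p θ' → F θ = F θ') :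
    ∑ θ ∈ gen p K k, F θ = k * ∑ P ∈ Pk p K k, F (rep K P) := by
  classical
  rw [← sum_fiberwise_of_maps_to (s := gen p K k) (t := Pk p K k) (g := mp p) (fun θ hθ => mem_image_of_mem _ hθ) F, mul_sum]
  apply sum_congr rfl
  intro P hP
  rw [sum_congr rfl (g := fun _ => F (rep K P)) (fun θ hθ => hF _ _ (by rw [(mem_filter.1 hθ).2, rep_mp hP])), sum_const,
    fiber_card hP, nsmul_eq_mul]

lemma gen_card (k : ℕ) : (gen p K k).card = k * (Pk p K k).card := by
  have h := sum_gen (p := p) (K := K) (k := k) (fun _ => (1 : ℝ)) (fun _ _ _ => rfl)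
  simp only [sum_const, nsmul_eq_mul, mul_one] at h
  exact_mod_cast h

lemma deg_dvd {k : ℕ} (hK : Fintype.card K = p ^ k) (θ : K) : (mp p θ).natDegree ∣ k := by
  rw [deg_dvd_iff, ← hK, FiniteField.pow_card]

lemma roots_le (m : ℕ) (hm : 1 ≤ m) : (univ.filter (fun θ : K => θ ^ p ^ m = θ)).card ≤ p ^ m := by
  by_contra h
  push Not at h
  have hp := (Fact.out (p := p.Prime)).one_lt
  have h0 : 1 < p ^ m := Nat.one_lt_pow (by omega) hp
  have h1 : (X ^ p ^ m - X : K[X]).natDegree = p ^ m := FiniteField.X_pow_card_sub_X_natDegree_eq K h0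
  have h2 : (X ^ p ^ m - X : K[X]) = 0 := by
    apply eq_zero_of_natDegree_lt_card_of_eval_eq_zero' _ (univ.filter (fun θ : K => θ ^ p ^ m = θ))
    · intro i hi
      rw [mem_filter] at hi
      rw [eval_sub, eval_pow, eval_X, hi.2, sub_self]
    · rw [h1]
      exact h
  rw [h2, natDegree_zero] at h1
  omega

lemma roots_le' (m : ℕ) (hm : 1 ≤ m) : (univ.filter (fun θ : K => θ ^ p ^ m + θ = 0)).card ≤ p ^ m := by
  by_contra h
  push Not at h
  have hp := (Fact.out (p := p.Prime)).one_lt
  have h0 : 1 < p ^ m := Nat.one_lt_pow (by omega) hp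
  have h1 : (X ^ p ^ m + X : K[X]).natDegree = p ^ m := by
    rw [natDegree_add_eq_left_of_natDegree_lt]
    · exact natDegree_X_pow _
    · rw [natDegree_X_pow, natDegree_X]
      exact h0
  have h2 : (X ^ p ^ m + X : K[X]) = 0 := by
    apply eq_zero_of_natDegree_lt_card_of_eval_eq_zero' _ (univ.filter (fun θ : K => θ ^ p ^ m + θ = 0))
    · intro i hi
      rw [mem_filter] at hi
      rw [eval_add, eval_pow, eval_X, hi.2]
    · rw [h1]
      exact h
  rw [h2, natDegree_zero] at h1
  omega

/-- the number of the elements of the subfield of index two -/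
lemma fix_card {m : ℕ} (hm : 1 ≤ m) (hK : Fintype.card K = p ^ (2 * m)) :
    (univ.filter (fun θ : K => θ ^ p ^ m = θ)).card = p ^ m := by
  classical
  have hc : CharP K p := charP_of_injective_algebraMap (algebraMap (ZMod p) K).injective p
  apply le_antisymm (roots_le m hm)
  obtain ⟨φ, hφ⟩ : ∃ φ : K →+ K, ∀ x, φ x = x ^ p ^ m - x := by
    refine ⟨{ toFun := fun x => x ^ p ^ m - x, map_zero' := ?_, map_add' := ?_ }, fun x => rfl⟩
    · rw [zero_pow (pow_ne_zero _ (Fact.out (p := p.Prime)).ne_zero), sub_zero]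
    · intro x y
      rw [add_pow_char_pow]
      ring
  have h1 : ∀ c ∈ univ.image φ, (univ.filter (fun u => φ u = c)).card = (univ.filter (fun u => φ u = 0)).card := by
    intro c hc
    rw [mem_image] at hc
    obtain ⟨x, _, hx⟩ := hc
    exact AddMonoidHom.card_fiber_eq_of_mem_range φ ⟨x, hx⟩ ⟨0, map_zero φ⟩
  have h2 : Fintype.card K = (univ.image φ).card * (univ.filter (fun u => φ u = 0)).card := by
    rw [← card_univ, card_eq_sum_card_fiberwise (f := φ) (s := univ) (t := univ.image φ) (fun x _ => by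
      rw [mem_coe]
      exact mem_image_of_mem _ (mem_univ x)), sum_congr rfl h1, sum_const, smul_eq_mul]
  have h3 : (univ.image φ).card ≤ p ^ m := by
    refine le_trans (card_le_card ?_) (roots_le' (K := K) m hm)
    intro c hc
    rw [mem_image] at hc
    obtain ⟨x, _, rfl⟩ := hc
    rw [mem_filter, hφ]
    refine ⟨mem_univ _, ?_⟩
    rw [sub_pow_char_pow, ← pow_mul, ← pow_add, ← two_mul, ← hK, FiniteField.pow_card]
    ring
  have h4 : (univ.filter (fun u => φ u = 0)) = univ.filter (fun θ : K => θ ^ p ^ m = θ) := by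
    ext x
    rw [mem_filter, mem_filter, hφ, sub_eq_zero]
  rw [h4, hK, two_mul, pow_add] at h2
  have h5 : 0 < p ^ m := pow_pos (Fact.out (p := p.Prime)).pos _
  by_contra hcon
  push Not at hcon
  have h6 : (univ.image φ).card * (univ.filter (fun θ : K => θ ^ p ^ m = θ)).card ≤
      p ^ m * (univ.filter (fun θ : K => θ ^ p ^ m = θ)).card := Nat.mul_le_mul_right _ h3
  have h7 : p ^ m * (univ.filter (fun θ : K => θ ^ p ^ m = θ)).card < p ^ m * p ^ m := Nat.mul_lt_mul_of_pos_left hcon h5
  omega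

lemma chi_fix (h3 : 3 ≤ p) {m : ℕ} (hK : Fintype.card K = p ^ (2 * m)) (y : K) (hy : y ≠ 0)
    (hf : y ^ p ^ m = y) : chi y = 1 := by
  unfold chi
  have h1 : quadraticChar K y = 1 := by
    rw [quadraticChar_one_iff_isSquare hy, FiniteField.isSquare_iff (rcK h3) hy, hK]
    have hodd : Odd (p ^ m) := ((Fact.out (p := p.Prime)).odd_of_ne_two (by omega)).pow
    obtain ⟨k, hk⟩ := hodd
    have h2 : p ^ (2 * m) / 2 = (p ^ m - 1) * (k + 1) := by
      have h4 : p ^ (2 * m) = 2 * ((p ^ m - 1) * (k + 1)) + 1 := by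
        rw [mul_comm 2 m, pow_mul, hk, Nat.add_sub_cancel]
        ring
      omega
    have h5 : y ^ (p ^ m - 1) = 1 := by
      have h6 : y ^ (p ^ m - 1) * y = 1 * y := by
        rw [← pow_succ, Nat.sub_add_cancel (by omega), hf, one_mul]
      exact mul_right_cancel₀ hy h6
    rw [h2, pow_mul, h5, one_pow]
  rw [h1]
  simp

lemma aeval_fix {m : ℕ} (θ : K) (hθ : θ ^ p ^ m = θ) (f : (ZMod p)[X]) : (aeval θ f) ^ p ^ m = aeval θ f := by
  have hc : CharP K p := charP_of_injective_algebraMap (algebraMap (ZMod p) K).injective p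
  have : ExpChar K p := ExpChar.prime (Fact.out)
  rw [aeval_eq_sum_range, sum_pow_char_pow]
  apply sum_congr rfl
  intro j _
  rw [Algebra.smul_def, mul_pow, ← map_pow, ← pow_mul, mul_comm j, pow_mul, hθ]
  congr 2
  have h1 : ∀ (x : ZMod p) (n : ℕ), x ^ p ^ n = x := by
    intro x n
    induction n with
    | zero => rw [pow_zero, pow_one]
    | succ n ih => rw [pow_succ, pow_mul, ih, ZMod.pow_card]
  exact h1 _ _

variable (p K) in
/-- the elements of small degree -/
noncomputable def low (r : ℕ) : Finset K := univ.filter (fun θ => (mp p θ).natDegree ≤ r)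

lemma low_card (r : ℕ) : (low p K r).card ≤ r * p ^ r := by
  have h1 : low p K r ⊆ (Icc 1 r).biUnion (fun m => univ.filter (fun θ : K => θ ^ p ^ m = θ)) := by
    intro θ hθ
    rw [low, mem_filter] at hθ
    rw [mem_biUnion]
    refine ⟨(mp p θ).natDegree, mem_Icc.2 ⟨mp_pos θ, hθ.2⟩, mem_filter.2 ⟨mem_univ _, (deg_dvd_iff θ _).1 dvd_rfl⟩⟩
  refine (card_le_card h1).trans (card_biUnion_le.trans ?_)
  refine (sum_le_card_nsmul _ _ (p ^ r) fun m hm => ?_).trans (le_of_eq ?_)
  · rw [mem_Icc] at hm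
    exact (roots_le m hm.1).trans (Nat.pow_le_pow_right (Fact.out (p := p.Prime)).pos hm.2)
  · rw [Nat.card_Icc, Nat.add_sub_cancel, smul_eq_mul]

/-- the sum over the points of degree `k` -/
noncomputable def SP (K : Type) [Field K] [Fintype K] [DecidableEq K] [Algebra (ZMod p) K] (k : ℕ) {d : ℕ}
    (u : Fin d → ZMod p) : ℝ := ∑ P ∈ Pk p K k, chi (aeval (rep K P) (evp u))

/-- the sum over all elements -/
noncomputable def TT (K : Type) [Field K] [Fintype K] [DecidableEq K] [Algebra (ZMod p) K] {d : ℕ}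
    (u : Fin d → ZMod p) : ℝ := ∑ θ : K, chi (aeval θ (evp u))

/-- the mean value -/
noncomputable def ev (k : ℕ) : ℝ := if Even k then 1 else 0

theorem TT_SP (h3 : 3 ≤ p) {k : ℕ} (hk : 1 ≤ k) (hK : Fintype.card K = p ^ k) {d : ℕ} (u : Fin d → ZMod p)
    (hu : evp u ≠ 0) : |TT K u - (k * SP K k u + ev k * √((p : ℝ) ^ k))| ≤ k * (p : ℝ) ^ (k / 3) + d := by
  classical
  have hp0 : (0 : ℝ) < p := by exact_mod_cast (Fact.out (p := p.Prime)).pos
  -- the elements of the subfield
  obtain ⟨E, hE⟩ : ∃ E : Finset K, E = if Even k then univ.filter (fun θ : K => θ ^ p ^ (k / 2) = θ) else ∅ := ⟨_, rfl⟩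
  have hEg : ∀ θ ∈ E, θ ∉ gen p K k := by
    intro θ hθ hg
    rw [hE] at hθ
    split_ifs at hθ with hev
    · rw [mem_filter, ← deg_dvd_iff] at hθ
      rw [gen, mem_filter] at hg
      rw [hg.2] at hθ
      have := Nat.le_of_dvd (by obtain ⟨c, hc⟩ := hev; omega) hθ.2
      omega
    · exact absurd hθ (notMem_empty _)
  have hlow : ∀ θ, θ ∉ gen p K k → θ ∉ E → θ ∈ low p K (k / 3) := by
    intro θ hg he
    have hne : (mp p θ).natDegree ≠ k := fun h => hg (mem_filter.2 ⟨mem_univ _, h⟩)
    obtain ⟨c, hc⟩ := deg_dvd hK θ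
    rw [low, mem_filter]
    refine ⟨mem_univ _, ?_⟩
    rcases Nat.lt_or_ge c 3 with hc3 | hc3
    · exfalso
      interval_cases c
      · omega
      · omega
      · apply he
        have hev : Even k := ⟨(mp p θ).natDegree, by omega⟩
        rw [hE, if_pos hev, mem_filter, ← deg_dvd_iff]
        exact ⟨mem_univ _, ⟨1, by omega⟩⟩
    · rw [Nat.le_div_iff_mul_le (by norm_num)]
      calc (mp p θ).natDegree * 3 ≤ (mp p θ).natDegree * c := Nat.mul_le_mul_left _ hc3
        _ = k := hc.symm
  have hsplit : TT K u = ∑ θ ∈ gen p K k, chi (aeval θ (evp u)) + (∑ θ ∈ E, chi (aeval θ (evp u)) +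
      ∑ θ ∈ univ.filter (fun θ => θ ∉ gen p K k ∧ θ ∉ E), chi (aeval θ (evp u))) := by
    unfold TT
    rw [← sum_filter_add_sum_filter_not univ (fun θ => θ ∈ gen p K k)]
    congr 1
    · apply sum_congr _ fun _ _ => rfl
      ext θ
      simp
    · rw [← sum_filter_add_sum_filter_not _ (fun θ => θ ∈ E)]
      congr 1
      · apply sum_congr _ fun _ _ => rfl
        ext θ
        rw [mem_filter, mem_filter]
        constructor
        · exact fun h => h.2
        · exact fun h => ⟨⟨mem_univ _, hEg θ h⟩, h⟩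
      · apply sum_congr _ fun _ _ => rfl
        ext θ
        rw [mem_filter, mem_filter, mem_filter]
        constructor
        · exact fun h => ⟨mem_univ _, h.1.2, h.2⟩
        · exact fun h => ⟨⟨mem_univ _, h.2.1⟩, h.2.2⟩
  have h1 : ∑ θ ∈ gen p K k, chi (aeval θ (evp u)) = k * SP K k u :=
    sum_gen (fun θ => chi (aeval θ (evp u))) (fun θ θ' h => chi_conj' h _)
  have h2 : |∑ θ ∈ univ.filter (fun θ => θ ∉ gen p K k ∧ θ ∉ E), chi (aeval θ (evp u))| ≤ k * (p : ℝ) ^ (k / 3) := by
    refine (abs_sum_le_sum_abs _ _).trans ((sum_le_card_nsmul _ _ 1 fun θ _ => chi_abs _).trans ?_)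
    rw [nsmul_eq_mul, mul_one]
    have h4 : (univ.filter (fun θ => θ ∉ gen p K k ∧ θ ∉ E)).card ≤ (low p K (k / 3)).card := by
      apply card_le_card
      intro θ hθ
      rw [mem_filter] at hθ
      exact hlow θ hθ.2.1 hθ.2.2
    have h5 := h4.trans (low_card (k / 3))
    have h6 : k / 3 * p ^ (k / 3) ≤ k * p ^ (k / 3) := Nat.mul_le_mul_right _ (Nat.div_le_self _ _)
    exact_mod_cast h5.trans h6
  have h4 : |∑ θ ∈ E, chi (aeval θ (evp u)) - ev k * √((p : ℝ) ^ k)| ≤ d := by
    unfold ev
    by_cases hev : Even k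
    · obtain ⟨m, hm⟩ := hev
      have hm1 : 1 ≤ m := by omega
      have hk2 : k / 2 = m := by omega
      have hKm : Fintype.card K = p ^ (2 * m) := by rw [hK, hm, two_mul]
      rw [if_pos ⟨m, hm⟩, one_mul]
      have hEe : E = univ.filter (fun θ : K => θ ^ p ^ m = θ) := by rw [hE, if_pos ⟨m, hm⟩, hk2]
      have hs : √((p : ℝ) ^ k) = E.card := by
        rw [hEe, fix_card hm1 hKm, hm, ← two_mul, mul_comm, pow_mul, Real.sqrt_sq (by positivity)]
        push_cast
        rfl
      have hcard : (E.card : ℝ) = ∑ θ ∈ E, 1 := by simp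
      rw [hs, hcard, ← sum_sub_distrib]
      refine (abs_sum_le_sum_abs _ _).trans ?_
      have h5 : ∀ θ ∈ E, |chi (aeval θ (evp u)) - 1| ≤ if aeval θ (evp u) = 0 then 1 else 0 := by
        intro θ hθ
        split_ifs with h0
        · rw [h0, chi_zero, zero_sub, abs_neg, abs_one]
        · rw [hEe, mem_filter] at hθ
          rw [chi_fix h3 hKm _ h0 (aeval_fix θ hθ.2 _), sub_self, abs_zero]
      refine (sum_le_sum h5).trans ?_
      rw [← sum_filter, sum_const, nsmul_eq_mul, mul_one]
      have h6 : (E.filter (fun θ => aeval θ (evp u) = 0)).card ≤ d := by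
        by_contra hc
        push Not at hc
        have h7 : ((evp u).map (algebraMap (ZMod p) K)) = 0 := by
          apply eq_zero_of_natDegree_lt_card_of_eval_eq_zero' _ (E.filter (fun θ => aeval θ (evp u) = 0))
          · intro i hi
            rw [eval_map_algebraMap]
            exact (mem_filter.1 hi).2
          · rw [natDegree_map]
            have h8 : (evp u).natDegree ≤ d := by
              rcases Nat.eq_zero_or_pos d with h9 | h9
              · subst h9
                exfalso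
                apply hu
                unfold evp
                simp
              · exact (evp_deg h9 u).le
            omega
        exact hu ((Polynomial.map_eq_zero _).1 h7)
      exact_mod_cast h6
    · rw [if_neg hev, zero_mul, hE, if_neg hev, sum_empty, sub_zero, abs_zero]
      exact Nat.cast_nonneg _
  rw [hsplit, h1]
  have h5 : (k * SP K k u + (∑ θ ∈ E, chi (aeval θ (evp u)) +
      ∑ θ ∈ univ.filter (fun θ => θ ∉ gen p K k ∧ θ ∉ E), chi (aeval θ (evp u)))) - (k * SP K k u + ev k * √((p : ℝ) ^ k)) =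
      (∑ θ ∈ E, chi (aeval θ (evp u)) - ev k * √((p : ℝ) ^ k)) +
      ∑ θ ∈ univ.filter (fun θ => θ ∉ gen p K k ∧ θ ∉ E), chi (aeval θ (evp u)) := by ring
  rw [h5]
  refine (abs_add_le _ _).trans ?_
  linarith

/-- the number of the points of degree `k` -/
theorem Pk_card {k : ℕ} (hk : 1 ≤ k) (hK : Fintype.card K = p ^ k) :
    ((Pk p K k).card : ℝ) ≤ (p : ℝ) ^ k / k ∧ |(k : ℝ) * (Pk p K k).card - (p : ℝ) ^ k| ≤ k * (p : ℝ) ^ (k / 2) := by
  classical
  have hk0 : (0 : ℝ) < k := by exact_mod_cast hk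
  have h1 : (k : ℝ) * (Pk p K k).card = (gen p K k).card := by
    rw [gen_card]
    push_cast
    rfl
  have h2 : (gen p K k).card + (univ.filter (fun θ : K => ¬ (mp p θ).natDegree = k)).card = p ^ k := by
    rw [gen, card_filter_add_card_filter_not, card_univ, hK]
  have h3 : (univ.filter (fun θ : K => ¬ (mp p θ).natDegree = k)).card ≤ (low p K (k / 2)).card := by
    apply card_le_card
    intro θ hθ
    rw [mem_filter] at hθ
    obtain ⟨c, hc⟩ := deg_dvd hK θ
    rw [low, mem_filter]
    refine ⟨mem_univ _, ?_⟩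
    rcases Nat.lt_or_ge c 2 with hc3 | hc3
    · exfalso
      interval_cases c
      · omega
      · omega
    · rw [Nat.le_div_iff_mul_le (by norm_num)]
      calc (mp p θ).natDegree * 2 ≤ (mp p θ).natDegree * c := Nat.mul_le_mul_left _ hc3
        _ = k := hc.symm
  have h4 := h3.trans (low_card (k / 2))
  have h5 : k / 2 * p ^ (k / 2) ≤ k * p ^ (k / 2) := Nat.mul_le_mul_right _ (Nat.div_le_self _ _)
  have h6 : ((gen p K k).card : ℝ) + ((univ.filter (fun θ : K => ¬ (mp p θ).natDegree = k)).card : ℝ) = (p : ℝ) ^ k := by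
    exact_mod_cast h2
  have h7 : ((univ.filter (fun θ : K => ¬ (mp p θ).natDegree = k)).card : ℝ) ≤ k * (p : ℝ) ^ (k / 2) := by
    exact_mod_cast h4.trans h5
  have h8 : (0 : ℝ) ≤ ((univ.filter (fun θ : K => ¬ (mp p θ).natDegree = k)).card : ℝ) := Nat.cast_nonneg _
  refine ⟨?_, ?_⟩
  · rw [le_div_iff₀ hk0, mul_comm, h1]
    linarith
  · rw [h1, abs_le]
    constructor <;> linarith

end

end Pool.Agent.R318.LP
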