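import Pool.Agent.R318.LP.B
import Pool.Agent.R318.SU.Lim

/-! # The moments of the sums over the points of degree `k` -/

set_option autoImplicit false
set_option linter.unusedSectionVars false

namespace Pool.Agent.R318.LP

open Finset Polynomial Filter Topology Pool.Agent.R318.ST Pool.Agent.R318.SU

section

variable {p : ℕ} [hpF : Fact p.Prime] {K : Type} [Field K] [Fintype K] [DecidableEq K] [Algebra (ZMod p) K]

/-- the evaluation at an element of degree `k` -/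
lemma av_ptK {k : ℕ} (hK : Fintype.card K = p ^ k) (d : ℕ) (hd : k ≤ d) (θ : K) (hθ : (mp p θ).natDegree = k) (ψ : K → ℝ) :
    av (fun u : Fin d → ZMod p => ψ (aeval θ (evp u))) = (∑ y, ψ y) / Fintype.card K := by
  classical
  have hinj : Function.Injective (fun u : Fin k → ZMod p => aeval θ (evp u)) := by
    intro u v huv
    simp only at huv
    have h1 : aeval θ (evp u - evp v) = 0 := by rw [map_sub, huv, sub_self]
    have h2 : mp p θ ∣ evp u - evp v := minpoly.dvd _ _ h1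
    have h3 : evp u - evp v = 0 := by
      by_contra h0
      have h4 := degree_le_of_dvd h2 h0
      have h5 : (evp u - evp v).degree < k := (degree_sub_le _ _).trans_lt (max_lt (evp_degree u) (evp_degree v))
      rw [degree_eq_natDegree (mp_monic θ).ne_zero, hθ] at h4
      exact absurd (h4.trans_lt h5) (lt_irrefl _)
    rw [sub_eq_zero] at h3
    funext j
    rw [← coeff_evp u j, h3, coeff_evp]
  have hbij : Function.Bijective (fun u : Fin k → ZMod p => aeval θ (evp u)) := by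
    rw [Fintype.bijective_iff_injective_and_card]
    refine ⟨hinj, ?_⟩
    rw [Fintype.card_fun, Fintype.card_fin, ZMod.card, hK]
  obtain ⟨e, he⟩ : ∃ e : (Fin d → ZMod p) →+ K, ∀ u, e u = aeval θ (evp u) := by
    refine ⟨{ toFun := fun u => aeval θ (evp u), map_zero' := ?_, map_add' := ?_ }, fun u => rfl⟩
    · have : evp (0 : Fin d → ZMod p) = 0 := by
        unfold evp
        simp
      rw [this, map_zero]
    · intro u v
      rw [evp_add, map_add]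
  have hes : Function.Surjective e := by
    intro y
    obtain ⟨u, hu⟩ := hbij.2 y
    refine ⟨fun j => (evp u).coeff j, ?_⟩
    rw [he, evp_coeff' (evp u) ((evp_degree u).trans_le (by exact_mod_cast hd))]
    exact hu
  have h := av_hom e hes ψ
  simp only [he] at h
  rw [h]
  rfl

/-- the values at the points of degree `k` -/
theorem kwiseK {k : ℕ} (hK : Fintype.card K = p ^ k) (d m : ℕ) (hm : m * k ≤ d) (ψ : K → ℝ) :
    KWise (fun (t : Pk p K k) (u : Fin d → ZMod p) => ψ (aeval (rep K (t : (ZMod p)[X])) (evp u))) m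
      (fun j => (∑ y, ψ y ^ j) / Fintype.card K) := by
  classical
  intro T t ht j r hr
  have h1 : (fun u : Fin d → ZMod p => ψ (aeval (rep K (t : (ZMod p)[X])) (evp u)) ^ j) ∈ Dep d {(t : (ZMod p)[X])} k :=
    AddSubmonoid.subset_closure (Pk_elem t.2 (fun y => ψ y ^ j))
  obtain ⟨S, hS⟩ : ∃ S : Set (ZMod p)[X], S = {P | ∃ s ∈ T, (s : (ZMod p)[X]) = P} := ⟨_, rfl⟩
  have h2 : (fun u : Fin d → ZMod p => ∑ s ∈ T, ψ (aeval (rep K (s : (ZMod p)[X])) (evp u))) ∈ Dep d S k := by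
    apply dep_sum
    intro s hs
    apply dep_mono _ le_rfl (AddSubmonoid.subset_closure (Pk_elem s.2 ψ))
    intro P hP
    rw [Set.mem_singleton_iff] at hP
    rw [hS]
    exact ⟨s, hs, hP.symm⟩
  have h3 := dep_pow h2 r
  have hdis : Disjoint {(t : (ZMod p)[X])} S := by
    rw [Set.disjoint_singleton_left, hS]
    rintro ⟨s, hs, hst⟩
    exact ht (Subtype.ext hst ▸ hs)
  have h4 := dep_factor h1 h3 hdis (by nlinarith)
  have h5 : 1 * k ≤ d := by nlinarith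
  have h6 := av_ptK hK d (by omega) (rep K (t : (ZMod p)[X])) (by rw [rep_mp t.2]; exact (Pk_deg t.2).1) (fun y => ψ y ^ j)
  rw [h6] at h4
  exact h4

lemma SP_coe (k : ℕ) {d : ℕ} (u : Fin d → ZMod p) :
    ∑ t : Pk p K k, chi (aeval (rep K (t : (ZMod p)[X])) (evp u)) = SP K k u := by
  unfold SP
  rw [← sum_coe_sort (Pk p K k)]

end

/-- the moments of the sum over the points of degree `k` -/
theorem mom_P (n k m : ℕ) (hk : 1 ≤ k) (hm : m * k ≤ n + 1) : ∃ C : ℝ, 0 ≤ C ∧ ∀ (p : ℕ) [Fact p.Prime] (K : Type) [Field K]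
    [Fintype K] [DecidableEq K] [Algebra (ZMod p) K], Fintype.card K = p ^ k → 3 ≤ p →
    |av (fun u : Fin (n + 1) → ZMod p => (SP K k u / √((p : ℝ) ^ k)) ^ m) -
      G m * (√(1 - 1 / (p : ℝ) ^ k) * √((Pk p K k).card / (p : ℝ) ^ k)) ^ m| ≤ C / √(p : ℝ) := by
  obtain ⟨C, hC, H⟩ := mom 1 le_rfl m
  refine ⟨C * m, by positivity, fun p hF K _ _ _ _ hK h3 => ?_⟩
  have hp0 : (0 : ℝ) < p := by exact_mod_cast hF.out.pos
  have hp1 : (1 : ℝ) ≤ p := by exact_mod_cast hF.out.one_le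
  have hpk : (1 : ℝ) ≤ (p : ℝ) ^ k := one_le_pow₀ hp1
  have hpk0 : (0 : ℝ) < (p : ℝ) ^ k := by positivity
  have h := H m le_rfl (Fin (n + 1) → ZMod p) (Pk p K k) (fun t u => chi (aeval (rep K (t : (ZMod p)[X])) (evp u))) m _
    (kwiseK hK (n + 1) m hm (chi : K → ℝ)) le_rfl (by simp only [pow_one]; rw [chi_sum1 (rcK h3), zero_div])
    (by
      rw [chi_sum2, hK]
      push_cast
      exact div_nonneg (by linarith) hpk0.le) (fun j => chi_mom j) univ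
  rw [chi_sum2, hK, card_univ, Fintype.card_coe] at h
  push_cast at h
  simp only [SP_coe] at h
  have e1 : ((p : ℝ) ^ k - 1) / (p : ℝ) ^ k = 1 - 1 / (p : ℝ) ^ k := by
    rw [sub_div, div_self hpk0.ne']
  rw [e1] at h
  obtain ⟨s, hs⟩ : ∃ s, s = √((p : ℝ) ^ k) := ⟨_, rfl⟩
  have hs0 : 0 < s := by rw [hs]; exact Real.sqrt_pos.2 hpk0
  obtain ⟨N, hN⟩ : ∃ N : ℝ, N = ((Pk p K k).card : ℝ) := ⟨_, rfl⟩
  have hN0 : 0 ≤ N := by rw [hN]; exact Nat.cast_nonneg _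
  have hk0 : (1 : ℝ) ≤ k := by exact_mod_cast hk
  have hNp : N ≤ (p : ℝ) ^ k := by
    rw [hN]
    refine (Pk_card hk hK).1.trans ?_
    exact div_le_self hpk0.le hk0
  have hNs : √N ≤ s := by rw [hs]; exact Real.sqrt_le_sqrt hNp
  have e4 : √(N / (p : ℝ) ^ k) = √N / s := by rw [hs, Real.sqrt_div hN0]
  have e5 : √(p : ℝ) ≤ s := by
    rw [hs]
    apply Real.sqrt_le_sqrt
    calc (p : ℝ) = (p : ℝ) ^ 1 := (pow_one _).symm
      _ ≤ (p : ℝ) ^ k := pow_le_pow_right₀ hp1 hk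
  have hsp0 : 0 < √(p : ℝ) := Real.sqrt_pos.2 hp0
  rw [← hN] at h ⊢
  rw [e4, ← hs]
  have e2 : (fun u : Fin (n + 1) → ZMod p => (SP K k u / s) ^ m) = fun u => (1 / s ^ m) * (SP K k u) ^ m := by
    funext u
    rw [div_pow]
    ring
  rw [e2, av_mul]
  rcases Nat.eq_zero_or_pos m with h0 | h0
  · subst h0
    simp only [pow_zero, av_one, G]
    norm_num
  have e3 : 1 / s ^ m * av (fun u : Fin (n + 1) → ZMod p => (SP K k u) ^ m) -
      G m * (√(1 - 1 / (p : ℝ) ^ k) * (√N / s)) ^ m =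
      (av (fun u : Fin (n + 1) → ZMod p => (SP K k u) ^ m) - G m * √(1 - 1 / (p : ℝ) ^ k) ^ m * √N ^ m) / s ^ m := by
    rw [mul_pow, div_pow]
    field_simp
  rw [e3, abs_div, abs_of_pos (pow_pos hs0 m), div_le_div_iff₀ (pow_pos hs0 m) hsp0]
  have h4 : s ^ m = s ^ (m - 1) * s := by rw [← pow_succ, Nat.sub_add_cancel h0]
  have h6 : √N ^ (m - 1) ≤ s ^ (m - 1) := pow_le_pow_left₀ (Real.sqrt_nonneg _) hNs _
  calc _ ≤ C * m * √N ^ (m - 1) * √(p : ℝ) := mul_le_mul_of_nonneg_right h hsp0.le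
    _ ≤ C * m * s ^ (m - 1) * s := by
        apply mul_le_mul _ e5 hsp0.le (by positivity)
        exact mul_le_mul_of_nonneg_left h6 (by positivity)
    _ = C * m * s ^ m := by rw [h4]; ring

section

variable {p : ℕ} [hpF : Fact p.Prime] {K : Type} [Field K] [Fintype K] [DecidableEq K] [Algebra (ZMod p) K]

lemma small_pow (k : ℕ) (hk : 1 ≤ k) : (p : ℝ) ^ (k / 3) * √(p : ℝ) ≤ √((p : ℝ) ^ k) ∧ (p : ℝ) ^ (k / 2) * √(p : ℝ) ≤ (p : ℝ) ^ k ∧
    √(p : ℝ) ≤ √((p : ℝ) ^ k) := by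
  have hp0 : (0 : ℝ) ≤ p := Nat.cast_nonneg _
  have hp1 : (1 : ℝ) ≤ p := by exact_mod_cast (Fact.out (p := p.Prime)).one_le
  obtain ⟨s, hs⟩ : ∃ s, s = √(p : ℝ) := ⟨_, rfl⟩
  have hs0 : 0 ≤ s := by rw [hs]; exact Real.sqrt_nonneg _
  have hs1 : 1 ≤ s := by rw [hs, Real.one_le_sqrt]; exact hp1
  have hs2 : (p : ℝ) = s ^ 2 := by rw [hs]; exact (Real.sq_sqrt hp0).symm
  have hk' : √((p : ℝ) ^ k) = s ^ k := by
    rw [hs2, ← pow_mul, mul_comm, pow_mul, Real.sqrt_sq (pow_nonneg hs0 _)]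
  rw [hk', ← hs, hs2, ← pow_mul, ← pow_mul, ← pow_mul, ← pow_succ, ← pow_succ]
  refine ⟨pow_le_pow_right₀ hs1 (by omega), pow_le_pow_right₀ hs1 (by omega), ?_⟩
  calc s = s ^ 1 := (pow_one _).symm
    _ ≤ s ^ k := pow_le_pow_right₀ hs1 hk

/-- Weil's bound -/
lemma TT_ns (h3 : 3 ≤ p) {k : ℕ} (hk : 1 ≤ k) (hK : Fintype.card K = p ^ k) {n : ℕ} (u : Fin (n + 1) → ZMod p)
    (hu : ¬ IsSq u) : |TT K u / √((p : ℝ) ^ k)| ≤ 2 * n := by
  have hp0 : (0 : ℝ) < p := by exact_mod_cast (Fact.out (p := p.Prime)).pos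
  have hp1 : (1 : ℝ) ≤ p := by exact_mod_cast (Fact.out (p := p.Prime)).one_le
  obtain ⟨h, g, hg, hsf, hd, hh, hgn, hhn⟩ := decomp u hu
  have hq : 3 ≤ Fintype.card K := by
    rw [hK]
    calc 3 ≤ p := h3
      _ = p ^ 1 := (pow_one p).symm
      _ ≤ p ^ k := Nat.pow_le_pow_right (by omega) hk
  have hsfK : Squarefree (g.map (algebraMap (ZMod p) K)) :=
    ((PerfectField.separable_iff_squarefree.2 hsf).map).squarefree
  have h1 := chi_ns (rcK h3) hq (h.map (algebraMap (ZMod p) K)) (g.map (algebraMap (ZMod p) K))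
    ((Polynomial.map_ne_zero_iff (algebraMap (ZMod p) K).injective).2 hh) hsfK (by rw [natDegree_map]; exact hd)
  have h2 : (h.map (algebraMap (ZMod p) K)) ^ 2 * g.map (algebraMap (ZMod p) K) = (evp u).map (algebraMap (ZMod p) K) := by
    rw [hg, Polynomial.map_mul, Polynomial.map_pow]
  rw [h2, natDegree_map, natDegree_map, hK] at h1
  simp only [eval_map_algebraMap] at h1
  push_cast at h1
  obtain ⟨s, hs⟩ : ∃ s, s = √((p : ℝ) ^ k) := ⟨_, rfl⟩
  rw [← hs] at h1 ⊢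
  have hs1 : 1 ≤ s := by
    rw [hs, Real.one_le_sqrt]
    exact one_le_pow₀ hp1
  have hs0 : 0 < s := by linarith
  rw [abs_div, abs_of_pos hs0, div_le_iff₀ hs0]
  unfold TT
  have h5 : (g.natDegree : ℝ) ≤ n := by exact_mod_cast hgn
  have h6 : (h.natDegree : ℝ) ≤ n := by exact_mod_cast hhn
  have h7 : (0 : ℝ) ≤ n := Nat.cast_nonneg _
  nlinarith

lemma ns_ne {n : ℕ} (u : Fin (n + 1) → ZMod p) (hu : ¬ IsSq u) : evp u ≠ 0 := by
  intro h
  exact hu ⟨0, 0, by rw [h]; simp⟩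

/-- the main part -/
noncomputable def AA (K : Type) [Field K] [Fintype K] [DecidableEq K] [Algebra (ZMod p) K] (k : ℕ) {d : ℕ}
    (u : Fin d → ZMod p) : ℝ := k * (SP K k u / √((p : ℝ) ^ k)) + ev k

lemma ev_abs (k : ℕ) : |ev k| ≤ 1 := by
  unfold ev
  split_ifs <;> simp

lemma TT_AA (h3 : 3 ≤ p) {k : ℕ} (hk : 1 ≤ k) (hK : Fintype.card K = p ^ k) {n : ℕ} (u : Fin (n + 1) → ZMod p)
    (hu : ¬ IsSq u) : |TT K u / √((p : ℝ) ^ k) - AA K k u| ≤ (k + n + 1) * (1 / √(p : ℝ)) := by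
  have hp0 : (0 : ℝ) < p := by exact_mod_cast (Fact.out (p := p.Prime)).pos
  have h := TT_SP h3 hk hK u (ns_ne u hu)
  obtain ⟨h1, _, h2⟩ := small_pow (p := p) k hk
  obtain ⟨s, hs⟩ : ∃ s, s = √((p : ℝ) ^ k) := ⟨_, rfl⟩
  have hsp0 : 0 < √(p : ℝ) := Real.sqrt_pos.2 hp0
  unfold AA
  rw [← hs] at h h1 h2 ⊢
  have hs0 : 0 < s := by linarith
  have e1 : TT K u / s - (k * (SP K k u / s) + ev k) = (TT K u - (k * SP K k u + ev k * s)) / s := by
    field_simp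
  rw [e1, abs_div, abs_of_pos hs0, mul_one_div, div_le_div_iff₀ hs0 hsp0]
  have hk0 : (0 : ℝ) ≤ k := Nat.cast_nonneg _
  have hn0 : (0 : ℝ) ≤ n := Nat.cast_nonneg _
  calc |TT K u - (k * SP K k u + ev k * s)| * √(p : ℝ) ≤ (k * (p : ℝ) ^ (k / 3) + (n + 1 : ℕ)) * √(p : ℝ) :=
        mul_le_mul_of_nonneg_right h hsp0.le
    _ = k * ((p : ℝ) ^ (k / 3) * √(p : ℝ)) + (n + 1) * √(p : ℝ) := by push_cast; ring
    _ ≤ k * s + (n + 1) * s := add_le_add (mul_le_mul_of_nonneg_left h1 hk0) (mul_le_mul_of_nonneg_left h2 (by positivity))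
    _ = (k + n + 1) * s := by ring

lemma inv_sqrt_le : 1 / √(p : ℝ) ≤ 1 := by
  have hp1 : (1 : ℝ) ≤ p := by exact_mod_cast (Fact.out (p := p.Prime)).one_le
  have hs1 : 1 ≤ √(p : ℝ) := by rw [Real.one_le_sqrt]; exact hp1
  rw [div_le_one (by linarith)]
  exact hs1

lemma AA_ns (h3 : 3 ≤ p) {k : ℕ} (hk : 1 ≤ k) (hK : Fintype.card K = p ^ k) {n : ℕ} (u : Fin (n + 1) → ZMod p)
    (hu : ¬ IsSq u) : |AA K k u| ≤ 3 * n + k + 1 := by
  have h1 := TT_ns h3 hk hK u hu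
  have h2 := TT_AA h3 hk hK u hu
  have h4 : ((k : ℝ) + n + 1) * (1 / √(p : ℝ)) ≤ k + n + 1 := mul_le_of_le_one_right (by positivity) inv_sqrt_le
  have h5 := abs_sub_abs_le_abs_sub (AA K k u) (TT K u / √((p : ℝ) ^ k))
  rw [abs_sub_comm] at h5
  linarith

lemma SP_ns (h3 : 3 ≤ p) {k : ℕ} (hk : 1 ≤ k) (hK : Fintype.card K = p ^ k) {n : ℕ} (u : Fin (n + 1) → ZMod p)
    (hu : ¬ IsSq u) : |SP K k u / √((p : ℝ) ^ k)| ≤ 3 * n + k + 2 := by
  have h1 := AA_ns h3 hk hK u hu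
  have h2 := ev_abs k
  have hk0 : (1 : ℝ) ≤ k := by exact_mod_cast hk
  obtain ⟨x, hx⟩ : ∃ x, x = SP K k u / √((p : ℝ) ^ k) := ⟨_, rfl⟩
  unfold AA at h1
  rw [← hx] at h1 ⊢
  have h4 : (k : ℝ) * x = (k * x + ev k) - ev k := by ring
  have h5 : |(k : ℝ) * x| ≤ 3 * n + k + 2 := by
    rw [h4]
    refine (abs_sub _ _).trans ?_
    linarith
  rw [abs_mul, abs_of_nonneg (by linarith)] at h5
  have h6 : |x| ≤ k * |x| := le_mul_of_one_le_left (abs_nonneg _) hk0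
  linarith

lemma SP_triv {k : ℕ} (hk : 1 ≤ k) (hK : Fintype.card K = p ^ k) {d : ℕ} (u : Fin d → ZMod p) :
    |SP K k u / √((p : ℝ) ^ k)| ≤ √(p : ℝ) ^ k := by
  have hp0 : (0 : ℝ) < p := by exact_mod_cast (Fact.out (p := p.Prime)).pos
  have hk0 : (1 : ℝ) ≤ k := by exact_mod_cast hk
  obtain ⟨s, hs⟩ : ∃ s, s = √(p : ℝ) := ⟨_, rfl⟩
  have hs0 : 0 < s := by rw [hs]; exact Real.sqrt_pos.2 hp0
  have hs2 : (p : ℝ) = s ^ 2 := by rw [hs]; exact (Real.sq_sqrt hp0.le).symm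
  have hk' : √((p : ℝ) ^ k) = s ^ k := by
    rw [hs2, ← pow_mul, mul_comm, pow_mul, Real.sqrt_sq (pow_nonneg hs0.le _)]
  rw [hk', ← hs, abs_div, abs_of_pos (pow_pos hs0 k), div_le_iff₀ (pow_pos hs0 k)]
  unfold SP
  refine (abs_sum_le_sum_abs _ _).trans ((sum_le_card_nsmul _ _ 1 fun x _ => chi_abs _).trans ?_)
  rw [nsmul_eq_mul, mul_one]
  refine (Pk_card hk hK).1.trans ?_
  refine (div_le_self (by positivity) hk0).trans (le_of_eq ?_)
  rw [hs2]
  ring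

end

noncomputable instance ftK (p k : ℕ) [Fact p.Prime] : Fintype (GaloisField p k) := Fintype.ofFinite _

noncomputable instance deK (p k : ℕ) [Fact p.Prime] : DecidableEq (GaloisField p k) := Classical.decEq _

lemma cardK (p k : ℕ) [Fact p.Prime] (hk : 1 ≤ k) : Fintype.card (GaloisField p k) = p ^ k := by
  rw [← Nat.card_eq_fintype_card, GaloisField.card p k (by omega)]

/-- the normalised sum over the points of degree `j + 1` -/
noncomputable def xx (p : ℕ) [Fact p.Prime] {d : ℕ} (u : Fin d → ZMod p) (j : ℕ) : ℝ :=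
  SP (GaloisField p (j + 1)) (j + 1) u / √((p : ℝ) ^ (j + 1))

/-- the moments of a centered normal variable with the variance `1 / (j + 1)` -/
noncomputable def gg (j m : ℕ) : ℝ := G m * √(1 / ((j : ℝ) + 1)) ^ m

lemma xx_dep (p : ℕ) [Fact p.Prime] (d j : ℕ) : (fun u : Fin d → ZMod p => xx p u j) ∈ Dep d {P | P.natDegree = j + 1} (j + 1) := by
  have h : (fun u : Fin d → ZMod p => xx p u j) = fun u => ∑ P ∈ Pk p (GaloisField p (j + 1)) (j + 1),
      (chi (aeval (rep (GaloisField p (j + 1)) P) (evp u)) / √((p : ℝ) ^ (j + 1))) := by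
    funext u
    unfold xx SP
    rw [sum_div]
  rw [h]
  apply dep_sum
  intro P hP
  apply dep_mono _ le_rfl (AddSubmonoid.subset_closure (Pk_elem hP (fun y => chi y / √((p : ℝ) ^ (j + 1)))))
  intro Q hQ
  rw [Set.mem_singleton_iff] at hQ
  rw [hQ]
  exact (Pk_deg hP).1

lemma xx_lim (n j m : ℕ) (hm : m * (j + 1) ≤ n + 1) : Tendsto (fun p : Nat.Primes => haveI : Fact (p : ℕ).Prime := ⟨p.2⟩
    av (fun u : Fin (n + 1) → ZMod p => xx (p : ℕ) u j ^ m)) ll (𝓝 (gg j m)) := by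
  obtain ⟨C, _, h⟩ := mom_P n (j + 1) m (by omega) hm
  apply tend_of _ (fun p : Nat.Primes => haveI : Fact (p : ℕ).Prime := ⟨p.2⟩
      G m * (√(1 - 1 / ((p : ℕ) : ℝ) ^ (j + 1)) * √((Pk (p : ℕ) (GaloisField p (j + 1)) (j + 1)).card / ((p : ℕ) : ℝ) ^ (j + 1))) ^ m)
      (fun p : Nat.Primes => C / √((p : ℕ) : ℝ)) _ _ (ll_sqrt C)
  · have k1 : Tendsto (fun p : Nat.Primes => 1 / ((p : ℕ) : ℝ) ^ (j + 1)) ll (𝓝 0) := by
      have := (ll_inv 1).pow (j + 1)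
      simp only [div_pow, one_pow] at this
      rwa [zero_pow (by omega)] at this
    have k2 : Tendsto (fun p : Nat.Primes => haveI : Fact (p : ℕ).Prime := ⟨p.2⟩
        ((Pk (p : ℕ) (GaloisField p (j + 1)) (j + 1)).card : ℝ) / ((p : ℕ) : ℝ) ^ (j + 1)) ll (𝓝 (1 / ((j : ℝ) + 1))) := by
      apply tend_of _ (fun _ => 1 / ((j : ℝ) + 1)) (fun p : Nat.Primes => 1 / √((p : ℕ) : ℝ)) _ _ (ll_sqrt 1) tendsto_const_nhds
      filter_upwards [ll_ge 3] with p hp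
      have : Fact (p : ℕ).Prime := ⟨p.2⟩
      have hp0 : (0 : ℝ) < (p : ℕ) := by exact_mod_cast p.2.pos
      have hsp0 : 0 < √((p : ℕ) : ℝ) := Real.sqrt_pos.2 hp0
      have h1 := (Pk_card (by omega : 1 ≤ j + 1) (cardK (p : ℕ) (j + 1) (by omega))).2
      have h2 := (small_pow (p := (p : ℕ)) (j + 1) (by omega)).2.1
      obtain ⟨N, hN⟩ : ∃ N : ℝ, N = ((Pk (p : ℕ) (GaloisField p (j + 1)) (j + 1)).card : ℝ) := ⟨_, rfl⟩
      rw [← hN] at h1 ⊢
      obtain ⟨q, hq⟩ : ∃ q : ℝ, q = ((p : ℕ) : ℝ) ^ (j + 1) := ⟨_, rfl⟩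
      have hq0 : 0 < q := by rw [hq]; positivity
      rw [← hq] at h1 h2 ⊢
      push_cast at h1
      have hj : (0 : ℝ) < (j : ℝ) + 1 := by positivity
      have e1 : N / q - 1 / ((j : ℝ) + 1) = (((j : ℝ) + 1) * N - q) / (((j : ℝ) + 1) * q) := by
        field_simp
      rw [e1, abs_div, abs_of_pos (mul_pos hj hq0), div_le_div_iff₀ (mul_pos hj hq0) hsp0]
      calc |((j : ℝ) + 1) * N - q| * √((p : ℕ) : ℝ) ≤ (((j : ℝ) + 1) * ((p : ℕ) : ℝ) ^ ((j + 1) / 2)) * √((p : ℕ) : ℝ) :=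
            mul_le_mul_of_nonneg_right h1 hsp0.le
        _ = ((j : ℝ) + 1) * (((p : ℕ) : ℝ) ^ ((j + 1) / 2) * √((p : ℕ) : ℝ)) := by ring
        _ ≤ ((j : ℝ) + 1) * q := mul_le_mul_of_nonneg_left h2 hj.le
        _ = 1 * (((j : ℝ) + 1) * q) := by ring
    have := (((((tendsto_const_nhds (x := (1 : ℝ))).sub k1).sqrt).mul k2.sqrt).pow m).const_mul (G m)
    simp only [sub_zero, Real.sqrt_one, one_mul] at this
    unfold gg
    exact this
  · filter_upwards [ll_ge 3] with p hp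
    have : Fact (p : ℕ).Prime := ⟨p.2⟩
    exact h p (GaloisField p (j + 1)) (cardK p (j + 1) (by omega)) hp

/-- the joint moments over all polynomials -/
theorem xx_joint (n : ℕ) (e : ℕ → ℕ) (J : Finset ℕ) (hJ : ∑ j ∈ J, e j * (j + 1) ≤ n + 1) :
    Tendsto (fun p : Nat.Primes => haveI : Fact (p : ℕ).Prime := ⟨p.2⟩
      av (fun u : Fin (n + 1) → ZMod p => ∏ j ∈ J, xx (p : ℕ) u j ^ e j)) ll (𝓝 (∏ j ∈ J, gg j (e j))) := by
  have h1 : Tendsto (fun p : Nat.Primes => ∏ j ∈ J, (haveI : Fact (p : ℕ).Prime := ⟨p.2⟩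
      av (fun u : Fin (n + 1) → ZMod p => xx (p : ℕ) u j ^ e j))) ll (𝓝 (∏ j ∈ J, gg j (e j))) := by
    apply tendsto_finsetProd
    intro j hj
    apply xx_lim
    exact (single_le_sum (f := fun j => e j * (j + 1)) (fun _ _ => Nat.zero_le _) hj).trans hJ
  refine h1.congr fun p => ?_
  have : Fact (p : ℕ).Prime := ⟨p.2⟩
  symm
  exact (dep_joint (d := n + 1) (fun j => {P : (ZMod (p : ℕ))[X] | P.natDegree = j + 1}) (fun i j hij => by
    rw [Set.disjoint_left]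
    intro P h1 h2
    simp only [Set.mem_setOf_eq] at h1 h2
    omega) (fun j u => xx (p : ℕ) u j) (fun j => j + 1) e J (fun j _ => xx_dep (p : ℕ) (n + 1) j) hJ).2

end Pool.Agent.R318.LP
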