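import Pool.Agent.R318.LP.C
import Pool.Agent.R318.SU.Fin

/-! # Polynomials in the sums over the points -/

set_option autoImplicit false
set_option linter.unusedSectionVars false

namespace Pool.Agent.R318.LP

open Finset Polynomial Filter Topology Pool.Agent.R318.ST Pool.Agent.R318.SU

/-- the weight: the variable number `j` has the weight `j + 1` -/
def wgt (e : ℕ →₀ ℕ) : ℕ := e.sum (fun j m => m * (j + 1))

lemma wgt_zero : wgt 0 = 0 := Finsupp.sum_zero_index

lemma wgt_add (e f : ℕ →₀ ℕ) : wgt (e + f) = wgt e + wgt f := by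
  unfold wgt
  apply Finsupp.sum_add_index'
  · intro a
    rw [zero_mul]
  · intro a b c
    rw [add_mul]

lemma wgt_single (j m : ℕ) : wgt (Finsupp.single j m) = m * (j + 1) := by
  unfold wgt
  apply Finsupp.sum_single_index
  rw [zero_mul]

open Classical in
/-- the average over the squarefree polynomials of degree `n` modulo `p` -/
noncomputable def avG (n : ℕ) (Φ : (p : ℕ) → [Fact p.Prime] → (Fin (n + 1) → ZMod p) → ℝ) (p : Nat.Primes) : ℝ :=
  haveI : Fact (p : ℕ).Prime := ⟨p.2⟩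
  av (fun u : Fin (n + 1) → ZMod p => if Gu u then Φ p u else 0)

lemma abs_av_le {V : Type} [Fintype V] (f : V → ℝ) : |av f| ≤ av (fun u => |f u|) := by
  unfold av
  rw [abs_div, abs_of_nonneg (Nat.cast_nonneg _ : (0 : ℝ) ≤ (Fintype.card V : ℝ))]
  exact div_le_div_of_nonneg_right (abs_sum_le_sum_abs _ _) (Nat.cast_nonneg _)

theorem G_joint (n : ℕ) (e : ℕ →₀ ℕ) (hw : wgt e < 2 * ((n + 1) / 2)) :
    Tendsto (avG n (fun p _ u => e.prod (fun j m => xx p u j ^ m))) ll (𝓝 (e.prod (fun j m => gg j m))) := by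
  classical
  obtain ⟨Bc, hBc⟩ : ∃ Bc : ℝ, Bc = ∏ j ∈ e.support, (3 * (n : ℝ) + (j + 1 : ℕ) + 2) ^ e j := ⟨_, rfl⟩
  have hBc0 : 0 ≤ Bc := by rw [hBc]; exact prod_nonneg fun j _ => by positivity
  apply tend_of _ (fun p : Nat.Primes => haveI : Fact (p : ℕ).Prime := ⟨p.2⟩
    av (fun u : Fin (n + 1) → ZMod p => ∏ j ∈ e.support, xx (p : ℕ) u j ^ e j))
    (fun p : Nat.Primes => (Bc * (n + 1)) / ((p : ℕ) : ℝ) + 2 / √((p : ℕ) : ℝ)) _ _
    (by simpa using (ll_inv (Bc * (n + 1))).add (ll_sqrt 2)) (xx_joint n e e.support (by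
      have : ∑ j ∈ e.support, e j * (j + 1) = wgt e := rfl
      omega))
  filter_upwards [ll_ge 3] with p hp
  have : Fact (p : ℕ).Prime := ⟨p.2⟩
  have hp0 : (0 : ℝ) < (p : ℕ) := by exact_mod_cast p.2.pos
  obtain ⟨s, hs⟩ : ∃ s, s = √((p : ℕ) : ℝ) := ⟨_, rfl⟩
  have hs0 : 0 < s := by rw [hs]; exact Real.sqrt_pos.2 hp0
  have hs1 : 1 ≤ s := by
    rw [hs, Real.one_le_sqrt]
    exact_mod_cast p.2.one_le
  have hs2 : ((p : ℕ) : ℝ) = s ^ 2 := by rw [hs]; exact (Real.sq_sqrt hp0.le).symm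
  unfold avG
  rw [← av_sub]
  have hpt : ∀ u : Fin (n + 1) → ZMod p,
      |(if Gu u then e.prod (fun j m => xx (p : ℕ) u j ^ m) else 0) - ∏ j ∈ e.support, xx (p : ℕ) u j ^ e j| ≤
      Bc * (if Gu u then (0 : ℝ) else 1) + s ^ (wgt e) * (if IsSq u then (1 : ℝ) else 0) := by
    intro u
    by_cases h : Gu u
    · rw [if_pos h, if_pos h]
      unfold Finsupp.prod
      rw [sub_self, abs_zero, mul_zero, zero_add]
      split_ifs
      · positivity
      · simp
    · rw [if_neg h, if_neg h, zero_sub, abs_neg, Finset.abs_prod, mul_one]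
      by_cases h' : IsSq u
      · rw [if_pos h', mul_one]
        have k3 : ∏ j ∈ e.support, |xx (p : ℕ) u j ^ e j| ≤ s ^ (wgt e) := by
          unfold wgt Finsupp.sum
          rw [← prod_pow_eq_pow_sum]
          apply prod_le_prod (fun j _ => abs_nonneg _)
          intro j _
          change |xx (p : ℕ) u j ^ e j| ≤ s ^ (e j * (j + 1))
          rw [abs_pow, mul_comm (e j), pow_mul]
          apply pow_le_pow_left₀ (abs_nonneg _)
          rw [hs]
          exact SP_triv (by omega) (cardK p (j + 1) (by omega)) u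
        linarith
      · rw [if_neg h', mul_zero, add_zero, hBc]
        apply prod_le_prod (fun j _ => abs_nonneg _)
        intro j _
        rw [abs_pow]
        apply pow_le_pow_left₀ (abs_nonneg _)
        exact SP_ns hp (by omega) (cardK p (j + 1) (by omega)) u h'
  refine (abs_av_le _).trans ((av_mono _ _ hpt).trans ?_)
  rw [av_add, av_mul, av_mul]
  have h2 : av (fun u : Fin (n + 1) → ZMod p => if Gu u then (0 : ℝ) else 1) ≤ ((n : ℝ) + 1) / (p : ℕ) := bad_av n p
  have h3 : av (fun u : Fin (n + 1) → ZMod p => if IsSq u then (1 : ℝ) else 0) ≤ 2 * s ^ (2 * (n / 2 + 1)) / s ^ (2 * (n + 1)) := by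
    have h4 := sq_count (p := p) hp n
    have h5 : ∑ u : Fin (n + 1) → ZMod p, (if IsSq u then (1 : ℝ) else 0) =
        ((univ : Finset (Fin (n + 1) → ZMod p)).filter (fun u => IsSq u)).card := by
      rw [← sum_filter, sum_const, nsmul_eq_mul, mul_one]
    unfold av
    rw [h5, Fintype.card_fun, Fintype.card_fin, ZMod.card]
    push_cast
    rw [hs2] at h4 ⊢
    rw [← pow_mul]
    rw [← pow_mul] at h4
    exact div_le_div_of_nonneg_right h4 (by positivity)
  apply add_le_add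
  · calc Bc * av (fun u : Fin (n + 1) → ZMod p => if Gu u then (0 : ℝ) else 1) ≤
        Bc * (((n : ℝ) + 1) / (p : ℕ)) := mul_le_mul_of_nonneg_left h2 hBc0
      _ = _ := by ring
  · calc s ^ (wgt e) * av (fun u : Fin (n + 1) → ZMod p => if IsSq u then (1 : ℝ) else 0) ≤
        s ^ (wgt e) * (2 * s ^ (2 * (n / 2 + 1)) / s ^ (2 * (n + 1))) := mul_le_mul_of_nonneg_left h3 (by positivity)
      _ ≤ 2 / s := by
          rw [mul_div_assoc', div_le_div_iff₀ (by positivity) hs0]
          have h6 : s ^ (wgt e) * (2 * s ^ (2 * (n / 2 + 1))) * s = 2 * s ^ (wgt e + 2 * (n / 2 + 1) + 1) := by ring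
          rw [h6]
          apply mul_le_mul_of_nonneg_left _ (by norm_num)
          apply pow_le_pow_right₀ hs1
          omega
      _ = _ := by rw [hs]

/-- the expectation of a polynomial in independent centered normal variables, the variable number `j` having the variance
`1 / (j + 1)` -/
noncomputable def ES (Q : MvPolynomial ℕ ℝ) : ℝ := ∑ e ∈ Q.support, Q.coeff e * e.prod (fun j m => gg j m)

/-- all monomials have at most the weight `r` -/
def WB (Q : MvPolynomial ℕ ℝ) (r : ℕ) : Prop := ∀ e ∈ Q.support, wgt e ≤ r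

theorem poly_lim (n : ℕ) (Q : MvPolynomial ℕ ℝ) (r : ℕ) (hQ : WB Q r) (hr : r < 2 * ((n + 1) / 2)) :
    Tendsto (avG n (fun p _ u => MvPolynomial.aeval (fun j => xx p u j) Q)) ll (𝓝 (ES Q)) := by
  classical
  have h : ∀ e ∈ Q.support, Tendsto (fun q => Q.coeff e * avG n (fun p _ u => e.prod (fun j m => xx p u j ^ m)) q) ll
      (𝓝 (Q.coeff e * e.prod (fun j m => gg j m))) := fun e he => (G_joint n e ((hQ e he).trans_lt hr)).const_mul _
  refine (tendsto_finsetSum _ h).congr fun p => ?_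
  have : Fact (p : ℕ).Prime := ⟨p.2⟩
  unfold avG
  have h1 : (fun u : Fin (n + 1) → ZMod p => if Gu u then MvPolynomial.aeval (fun j => xx (p : ℕ) u j) Q else 0) =
      fun u => ∑ e ∈ Q.support, Q.coeff e * (if Gu u then e.prod (fun j m => xx (p : ℕ) u j ^ m) else 0) := by
    funext u
    by_cases hg : Gu u
    · simp only [if_pos hg]
      rw [MvPolynomial.aeval_def, MvPolynomial.eval₂_eq]
      rfl
    · simp only [if_neg hg, mul_zero, sum_const_zero]
  rw [h1, av_sum]
  apply sum_congr rfl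
  intro e _
  rw [av_mul]

/-- the coefficients of the power series `exp(∑ t (k - 1) T ^ k / k)`, by Newton's identities -/
noncomputable def cf {A : Type} [CommRing A] [Algebra ℝ A] (t : ℕ → A) : ℕ → A
  | 0 => 1
  | (i + 1) => (1 / ((i : ℝ) + 1)) • ∑ j : Fin (i + 1), t j * cf t (i - j)
termination_by i => i
decreasing_by
  have := j.2
  omega

lemma cf_zero {A : Type} [CommRing A] [Algebra ℝ A] (t : ℕ → A) : cf t 0 = 1 := by
  rw [cf]

lemma cf_succ {A : Type} [CommRing A] [Algebra ℝ A] (t : ℕ → A) (i : ℕ) :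
    cf t (i + 1) = (1 / ((i : ℝ) + 1)) • ∑ j : Fin (i + 1), t j * cf t (i - j) := by
  rw [cf]

lemma cf_map {A B : Type} [CommRing A] [Algebra ℝ A] [CommRing B] [Algebra ℝ B] (φ : A →ₐ[ℝ] B) (t : ℕ → A) (i : ℕ) :
    φ (cf t i) = cf (fun j => φ (t j)) i := by
  induction i using Nat.strong_induction_on with
  | _ i ih =>
    rcases i with _ | i
    · rw [cf_zero, cf_zero, map_one]
    · rw [cf_succ, cf_succ, map_smul, map_sum]
      congr 1
      apply sum_congr rfl
      intro j _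
      rw [map_mul, ih (i - j) (by omega)]

section WB

lemma WB_mono {Q : MvPolynomial ℕ ℝ} {r r' : ℕ} (h : WB Q r) (hr : r ≤ r') : WB Q r' := fun e he => (h e he).trans hr

lemma WB_add {Q R : MvPolynomial ℕ ℝ} {r : ℕ} (h : WB Q r) (h' : WB R r) : WB (Q + R) r := by
  classical
  intro e he
  rcases mem_union.1 (MvPolynomial.support_add he) with h1 | h1
  · exact h e h1
  · exact h' e h1

lemma WB_zero (r : ℕ) : WB 0 r := by
  intro e he
  rw [MvPolynomial.support_zero] at he
  exact absurd he (notMem_empty e)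

lemma WB_sum {ι : Type} (t : Finset ι) (Q : ι → MvPolynomial ℕ ℝ) (r : ℕ) (h : ∀ i ∈ t, WB (Q i) r) : WB (∑ i ∈ t, Q i) r := by
  classical
  induction t using Finset.induction_on with
  | empty => rw [sum_empty]; exact WB_zero r
  | insert a t ha ih =>
    rw [sum_insert ha]
    exact WB_add (h a (mem_insert_self a t)) (ih fun i hi => h i (mem_insert_of_mem hi))

lemma WB_mul {Q R : MvPolynomial ℕ ℝ} {r r' : ℕ} (h : WB Q r) (h' : WB R r') : WB (Q * R) (r + r') := by
  classical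
  intro e he
  have h1 := MvPolynomial.support_mul Q R he
  rw [Finset.mem_add] at h1
  obtain ⟨a, ha, b, hb, rfl⟩ := h1
  rw [wgt_add]
  have := h a ha
  have := h' b hb
  omega

lemma WB_C (a : ℝ) : WB (MvPolynomial.C a) 0 := by
  classical
  intro e he
  rw [MvPolynomial.mem_support_iff, MvPolynomial.coeff_C] at he
  split_ifs at he with h0
  · rw [← h0, wgt_zero]
  · exact absurd rfl he

lemma WB_X (j : ℕ) : WB (MvPolynomial.X j) (j + 1) := by
  classical
  intro e he
  rw [MvPolynomial.mem_support_iff, MvPolynomial.coeff_X] at he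
  split_ifs at he with h0
  · rw [← h0, wgt_single, one_mul]
  · exact absurd rfl he

lemma WB_one : WB 1 0 := by
  rw [← MvPolynomial.C_1]
  exact WB_C 1

lemma WB_pow {Q : MvPolynomial ℕ ℝ} {r : ℕ} (h : WB Q r) (m : ℕ) : WB (Q ^ m) (m * r) := by
  induction m with
  | zero =>
    rw [pow_zero, zero_mul]
    exact WB_one
  | succ m ih =>
    rw [pow_succ, add_mul, one_mul]
    exact WB_mul ih h

lemma WB_smul {Q : MvPolynomial ℕ ℝ} {r : ℕ} (a : ℝ) (h : WB Q r) : WB (a • Q) r := by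
  rw [MvPolynomial.smul_eq_C_mul]
  have := WB_mul (WB_C a) h
  rwa [zero_add] at this

lemma WB_prod {ι : Type} (t : Finset ι) (Q : ι → MvPolynomial ℕ ℝ) (r : ι → ℕ) (h : ∀ i ∈ t, WB (Q i) (r i)) :
    WB (∏ i ∈ t, Q i) (∑ i ∈ t, r i) := by
  classical
  induction t using Finset.induction_on with
  | empty => rw [prod_empty, sum_empty]; exact WB_one
  | insert a t ha ih =>
    rw [prod_insert ha, sum_insert ha]
    exact WB_mul (h a (mem_insert_self a t)) (ih fun i hi => h i (mem_insert_of_mem hi))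

lemma WB_cf (t : ℕ → MvPolynomial ℕ ℝ) (ht : ∀ j, WB (t j) (j + 1)) (i : ℕ) : WB (cf t i) i := by
  induction i using Nat.strong_induction_on with
  | _ i ih =>
    rcases i with _ | i
    · rw [cf_zero]
      exact WB_one
    · rw [cf_succ]
      apply WB_smul
      apply WB_sum
      intro j _
      have h := WB_mul (ht j) (ih (i - j) (by omega))
      apply WB_mono h
      have := j.2
      omega

end WB

/-- the model for the number `t_(j+1)`: a normal variable with the variance `j + 1` and the mean value `1` or `0` according to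
the parity of `j + 1` -/
noncomputable def AQ (j : ℕ) : MvPolynomial ℕ ℝ := MvPolynomial.C ((j : ℝ) + 1) * MvPolynomial.X j + MvPolynomial.C (ev (j + 1))

lemma WB_AQ (j : ℕ) : WB (AQ j) (j + 1) := by
  unfold AQ
  apply WB_add
  · have := WB_mul (WB_C ((j : ℝ) + 1)) (WB_X j)
    rwa [zero_add] at this
  · exact WB_mono (WB_C _) (Nat.zero_le _)

/-- a monomial in the coefficients -/
noncomputable def QQ {A : Type} [CommRing A] [Algebra ℝ A] (t : ℕ → A) (e : ℕ →₀ ℕ) : A := e.prod (fun i m => cf t (i + 1) ^ m)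

/-- the limiting joint moments of the coefficients -/
noncomputable def ML (e : ℕ →₀ ℕ) : ℝ := ES (QQ AQ e)

lemma QQ_map {A B : Type} [CommRing A] [Algebra ℝ A] [CommRing B] [Algebra ℝ B] (φ : A →ₐ[ℝ] B) (t : ℕ → A) (e : ℕ →₀ ℕ) :
    φ (QQ t e) = QQ (fun j => φ (t j)) e := by
  unfold QQ Finsupp.prod
  rw [map_prod]
  apply prod_congr rfl
  intro i _
  rw [map_pow, cf_map]

lemma WB_QQ (e : ℕ →₀ ℕ) : WB (QQ AQ e) (wgt e) := by
  unfold QQ Finsupp.prod wgt Finsupp.sum
  apply WB_prod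
  intro i _
  exact WB_pow (WB_cf AQ WB_AQ (i + 1)) (e i)

/-- polynomials are Lipschitz -/
lemma lip (B D : ℕ → ℝ) (Q : MvPolynomial ℕ ℝ) : ∃ C : ℝ, 0 ≤ C ∧ ∀ (y z : ℕ → ℝ) (δ : ℝ), 0 ≤ δ → (∀ j, |y j| ≤ B j) →
    (∀ j, |z j| ≤ B j) → (∀ j, |y j - z j| ≤ D j * δ) →
    |MvPolynomial.aeval y Q| ≤ C ∧ |MvPolynomial.aeval z Q| ≤ C ∧ |MvPolynomial.aeval y Q - MvPolynomial.aeval z Q| ≤ C * δ := by
  induction Q using MvPolynomial.induction_on with
  | C a =>
    refine ⟨|a|, abs_nonneg _, fun y z δ hδ _ _ _ => ?_⟩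
    simp only [MvPolynomial.aeval_C, Algebra.algebraMap_self, RingHom.id_apply, sub_self, abs_zero]
    exact ⟨le_rfl, le_rfl, by positivity⟩
  | add P Q hP hQ =>
    obtain ⟨C, hC, h⟩ := hP
    obtain ⟨C', hC', h'⟩ := hQ
    refine ⟨C + C', by positivity, fun y z δ hδ hy hz hd => ?_⟩
    obtain ⟨a1, a2, a3⟩ := h y z δ hδ hy hz hd
    obtain ⟨b1, b2, b3⟩ := h' y z δ hδ hy hz hd
    rw [map_add, map_add]
    refine ⟨(abs_add_le _ _).trans (by linarith), (abs_add_le _ _).trans (by linarith), ?_⟩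
    rw [add_sub_add_comm]
    refine (abs_add_le _ _).trans ?_
    rw [add_mul]
    linarith
  | mul_X P j hP =>
    obtain ⟨C, hC, h⟩ := hP
    refine ⟨C * |B j| + C * |D j| + C * |B j|, by positivity, fun y z δ hδ hy hz hd => ?_⟩
    obtain ⟨a1, a2, a3⟩ := h y z δ hδ hy hz hd
    rw [map_mul, map_mul, MvPolynomial.aeval_X, MvPolynomial.aeval_X]
    have b1 : |y j| ≤ |B j| := (hy j).trans (le_abs_self _)
    have b2 : |z j| ≤ |B j| := (hz j).trans (le_abs_self _)
    have b3 : |y j - z j| ≤ |D j| * δ := (hd j).trans (mul_le_mul_of_nonneg_right (le_abs_self _) hδ)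
    have c1 : 0 ≤ C * |D j| := by positivity
    have c2 : 0 ≤ C * |B j| := by positivity
    refine ⟨?_, ?_, ?_⟩
    · rw [abs_mul]
      have := mul_le_mul a1 b1 (abs_nonneg _) hC
      linarith
    · rw [abs_mul]
      have := mul_le_mul a2 b2 (abs_nonneg _) hC
      linarith
    · have e1 : MvPolynomial.aeval y P * y j - MvPolynomial.aeval z P * z j =
          (MvPolynomial.aeval y P - MvPolynomial.aeval z P) * y j + MvPolynomial.aeval z P * (y j - z j) := by ring
      rw [e1]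
      refine (abs_add_le _ _).trans ?_
      rw [abs_mul, abs_mul]
      have k1 := mul_le_mul a3 b1 (abs_nonneg _) (by positivity)
      have k2 := mul_le_mul a2 b3 (abs_nonneg _) hC
      have k3 : 0 ≤ C * |B j| * δ := by positivity
      have e2 : (C * |B j| + C * |D j| + C * |B j|) * δ = C * δ * |B j| + C * (|D j| * δ) + C * |B j| * δ := by ring
      rw [e2]
      linarith

/-- the normalised traces of a polynomial modulo `p` -/
noncomputable def tt (p : ℕ) [Fact p.Prime] {d : ℕ} (u : Fin d → ZMod p) (j : ℕ) : ℝ :=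
  TT (GaloisField p (j + 1)) u / √((p : ℝ) ^ (j + 1))

/-- the main parts -/
noncomputable def yy (p : ℕ) [Fact p.Prime] {d : ℕ} (u : Fin d → ZMod p) (j : ℕ) : ℝ := AA (GaloisField p (j + 1)) (j + 1) u

lemma yy_xx (p : ℕ) [Fact p.Prime] {d : ℕ} (u : Fin d → ZMod p) (j : ℕ) :
    yy p u j = MvPolynomial.aeval (fun j => xx p u j) (AQ j) := by
  unfold yy AA AQ xx
  rw [map_add, map_mul, MvPolynomial.aeval_C, MvPolynomial.aeval_C, MvPolynomial.aeval_X]
  simp only [Algebra.algebraMap_self, RingHom.id_apply]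
  push_cast
  rfl

lemma tt_bd (n : ℕ) (hn : 1 ≤ n) (p : ℕ) [Fact p.Prime] (h3 : 3 ≤ p) (u : Fin (n + 1) → ZMod p) (hu : Gu u) (j : ℕ) :
    |tt p u j| ≤ 3 * n + (j + 1 : ℕ) + 1 ∧ |yy p u j| ≤ 3 * n + (j + 1 : ℕ) + 1 ∧
      |tt p u j - yy p u j| ≤ ((j + 1 : ℕ) + n + 1) * (1 / √(p : ℝ)) := by
  have hns := Gu_ns hn u hu
  have h1 := TT_ns h3 (by omega) (cardK p (j + 1) (by omega)) u hns
  have h2 := AA_ns h3 (by omega) (cardK p (j + 1) (by omega)) u hns
  have h4 := TT_AA h3 (by omega) (cardK p (j + 1) (by omega)) u hns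
  refine ⟨?_, h2, h4⟩
  refine h1.trans ?_
  have : (0 : ℝ) ≤ n := Nat.cast_nonneg _
  have : (0 : ℝ) ≤ ((j + 1 : ℕ) : ℝ) := Nat.cast_nonneg _
  linarith

lemma QQ_aeval (y : ℕ → ℝ) (e : ℕ →₀ ℕ) : QQ y e = MvPolynomial.aeval y (QQ (MvPolynomial.X : ℕ → MvPolynomial ℕ ℝ) e) := by
  rw [QQ_map]
  simp only [MvPolynomial.aeval_X]

/-- the limits of the joint moments of the coefficients -/
theorem T_lim (n : ℕ) (hn : 1 ≤ n) (e : ℕ →₀ ℕ) (hw : wgt e < 2 * ((n + 1) / 2)) :
    Tendsto (avG n (fun p _ u => QQ (tt p u) e)) ll (𝓝 (ML e)) := by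
  classical
  obtain ⟨C, hC, H⟩ := lip (fun j => 3 * n + (j + 1 : ℕ) + 1) (fun j => ((j + 1 : ℕ) : ℝ) + n + 1)
    (QQ (MvPolynomial.X : ℕ → MvPolynomial ℕ ℝ) e)
  apply tend_of _ (avG n (fun p _ u => MvPolynomial.aeval (fun j => xx p u j) (QQ AQ e)))
    (fun p : Nat.Primes => C / √((p : ℕ) : ℝ)) _ _ (ll_sqrt C) (poly_lim n (QQ AQ e) (wgt e) (WB_QQ e) hw)
  filter_upwards [ll_ge 3] with p hp
  have : Fact (p : ℕ).Prime := ⟨p.2⟩
  unfold avG
  rw [← av_sub]
  have hpt : ∀ u : Fin (n + 1) → ZMod p,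
      |(if Gu u then QQ (tt (p : ℕ) u) e else 0) -
        (if Gu u then MvPolynomial.aeval (fun j => xx (p : ℕ) u j) (QQ AQ e) else 0)| ≤ C / √((p : ℕ) : ℝ) * 1 := by
    intro u
    split_ifs with h
    · have h1 : MvPolynomial.aeval (fun j => xx (p : ℕ) u j) (QQ AQ e) = QQ (yy (p : ℕ) u) e := by
        rw [QQ_map]
        congr 1
        funext j
        exact (yy_xx (p : ℕ) u j).symm
      rw [h1, QQ_aeval, QQ_aeval]
      have h2 := (H (tt (p : ℕ) u) (yy (p : ℕ) u) (1 / √((p : ℕ) : ℝ)) (by positivity)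
        (fun j => (tt_bd n hn (p : ℕ) hp u h j).1) (fun j => (tt_bd n hn (p : ℕ) hp u h j).2.1)
        (fun j => (tt_bd n hn (p : ℕ) hp u h j).2.2)).2.2
      rw [mul_one_div] at h2
      rw [mul_one]
      exact h2
    · rw [sub_self, abs_zero]
      positivity
  refine (abs_av_le _).trans ((av_mono _ _ hpt).trans ?_)
  rw [av_mul, av_one, mul_one]

end Pool.Agent.R318.LP
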