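import Pool.Agent.R318.LP.D

/-! # The coefficients of the `L`-polynomials of hyperelliptic curves: the main theorem -/

set_option autoImplicit false
set_option linter.unusedSectionVars false

namespace Pool.Agent.R318.LP

open Finset Polynomial Filter Topology Pool.Agent.R318.ST Pool.Agent.R318.SU

/-- the number of the points `(x, y)` of `y ^ 2 = f(x)` over the field with `p ^ k` elements, where `f` has the coefficients
`a` -/
noncomputable def pointsK {n : ℕ} (a : Fin (n + 1) → ℤ) (p : ℕ) [Fact p.Prime] (k : ℕ) : ℕ :=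
  Nat.card {z : GaloisField p k × GaloisField p k // z.2 ^ 2 = ∑ j : Fin (n + 1), (a j : GaloisField p k) * z.1 ^ (j : ℕ)}

open Classical in
/-- the number `(N_k - p ^ k) / √(p ^ k)`, where `N_k` is the number of the points over the field with `p ^ k` elements -/
noncomputable def tK {n : ℕ} (a : Fin (n + 1) → ℤ) (p k : ℕ) : ℝ :=
  if h : p.Prime then
    haveI : Fact p.Prime := ⟨h⟩
    ((pointsK a p k : ℝ) - (p : ℝ) ^ k) / √((p : ℝ) ^ k)
  else 0

/-- the coefficient number `i` of `exp(∑ t_k T ^ k / k)` for these numbers `t_k`, that is, the coefficient number `i` of the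
normalised `L`-polynomial for `n` odd -/
noncomputable def coefL {n : ℕ} (a : Fin (n + 1) → ℤ) (p i : ℕ) : ℝ := cf (fun j => tK a p (j + 1)) i

section

variable {p : ℕ} [hpF : Fact p.Prime]

lemma pointsK_eq (h3 : 3 ≤ p) {n : ℕ} (a : Fin (n + 1) → ℤ) (k : ℕ) (hk : 1 ≤ k) :
    (pointsK a p k : ℝ) - (p : ℝ) ^ k = TT (GaloisField p k) (fun j => ((a j : ℤ) : ZMod p)) := by
  classical
  have h1 : ∀ x : GaloisField p k, aeval x (evp (fun j => ((a j : ℤ) : ZMod p))) =
      ∑ j : Fin (n + 1), (a j : GaloisField p k) * x ^ (j : ℕ) := by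
    intro x
    unfold evp
    rw [map_sum]
    apply sum_congr rfl
    intro j _
    rw [map_mul, map_pow, aeval_X, aeval_C, map_intCast]
  have h2 : pointsK a p k = ∑ x : GaloisField p k, (univ.filter (fun y : GaloisField p k => y ^ 2 =
      aeval x (evp (fun j => ((a j : ℤ) : ZMod p))))).card := by
    unfold pointsK
    rw [Nat.card_eq_fintype_card, Fintype.card_subtype, card_filter, Fintype.sum_prod_type]
    apply sum_congr rfl
    intro x _
    rw [card_filter]
    apply sum_congr rfl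
    intro y _
    simp only [h1]
  have h4 : ∀ x : GaloisField p k, ((univ.filter (fun y : GaloisField p k => y ^ 2 =
      aeval x (evp (fun j => ((a j : ℤ) : ZMod p))))).card : ℝ) = chi (aeval x (evp (fun j => ((a j : ℤ) : ZMod p)))) + 1 := by
    intro x
    have h := quadraticChar_card_sqrts (F := GaloisField p k) (rcK h3) (aeval x (evp (fun j => ((a j : ℤ) : ZMod p))))
    unfold chi
    have h5 : (((univ.filter (fun y : GaloisField p k => y ^ 2 = aeval x (evp (fun j => ((a j : ℤ) : ZMod p))))).card : ℤ)) =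
        quadraticChar (GaloisField p k) (aeval x (evp (fun j => ((a j : ℤ) : ZMod p)))) + 1 := by
      rw [← h]
      congr 1
      apply congrArg
      ext z
      simp
    exact_mod_cast h5
  rw [h2]
  push_cast
  rw [sum_congr rfl fun x _ => h4 x, sum_add_distrib, sum_const, card_univ, cardK p k hk, nsmul_eq_mul, mul_one]
  unfold TT
  push_cast
  ring

lemma tK_eq (h3 : 3 ≤ p) {n : ℕ} (a : Fin (n + 1) → ℤ) (j : ℕ) :
    tK a p (j + 1) = tt p (fun j => ((a j : ℤ) : ZMod p)) j := by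
  unfold tK tt
  rw [dif_pos hpF.out, pointsK_eq h3 a (j + 1) (by omega)]

end

/-- at every `x ≥ X` with `x ^ W ≤ N`: all the primes up to `x` but a proportion of at most `ε` are good, and the averages of
the products of powers of the coefficients over the good primes are close to their limits `ML e` -/
def CloseL (n : ℕ) (ε : ℝ) (X W N : ℕ) (a : Fin (n + 1) → ℤ) : Prop :=
  ∀ x : ℕ, X ≤ x → x ^ W ≤ N → (1 - ε) * (Nat.primeCounting x : ℝ) ≤ (goods 2 a x).card ∧
    ∀ e : ℕ →₀ ℕ, wgt e < 2 * ((n + 1) / 2) →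
      |∑ p ∈ goods 2 a x, e.prod (fun i m => coefL a p (i + 1) ^ m) - ML e * (goods 2 a x).card| ≤ ε * (goods 2 a x).card

theorem main (b : ℕ) (hb : 2 ≤ b) (η : ℝ) (hη : 0 < η) : ∃ W : ℕ, 1 ≤ W ∧
    ∀ n : ℕ, 1 ≤ n → ∀ κ : Fin (n + 1) → ℤ, (∀ j, κ j ≠ 0) → ∀ ε : ℝ, 0 < ε →
    ∃ (C : ℝ) (X₀ : ℕ), ∀ k X : ℕ, X₀ ≤ X → ∀ (c : Fin (n + 1) → ℤ) (u : Fin (n + 1) → ℕ → ℕ → ℝ),
    (∀ j, Dist b k η (u j)) →
    PrV b k u (fun g => ¬ CloseL n ε X W (b ^ k) (fun j => c j + κ j * (dval b (g j) : ℕ))) ≤ C * (Real.log X / X) := by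
  classical
  obtain ⟨W, hW, H⟩ := gen_all b hb η hη
  refine ⟨W, hW, fun n hn κ hκ ε hε => ?_⟩
  obtain ⟨R, hR⟩ : ∃ R, R = 2 * ((n + 1) / 2) := ⟨_, rfl⟩
  obtain ⟨S, hS⟩ : ∃ S : Finset (ℕ →₀ ℕ), S = ((range R).finsupp (fun _ => range R)).filter (fun s => wgt s < R) := ⟨_, rfl⟩
  have hmS : ∀ s, s ∈ S ↔ wgt s < R := by
    intro s
    rw [hS, mem_filter, mem_finsupp_iff]
    constructor
    · exact fun h => h.2
    · intro h
      have h1 : ∀ j ∈ s.support, s j * (j + 1) ≤ wgt s := by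
        intro j hj
        unfold wgt Finsupp.sum
        exact single_le_sum (f := fun j => s j * (j + 1)) (fun _ _ => Nat.zero_le _) hj
      refine ⟨⟨?_, ?_⟩, h⟩
      · intro j hj
        have h2 := h1 j hj
        have h3 : 1 ≤ s j := Nat.one_le_iff_ne_zero.2 (Finsupp.mem_support_iff.1 hj)
        rw [mem_range]
        have h4 : 1 * (j + 1) ≤ s j * (j + 1) := Nat.mul_le_mul_right _ h3
        omega
      · intro j _
        rw [mem_range]
        by_cases hj : j ∈ s.support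
        · have h2 := h1 j hj
          have h4 : s j * 1 ≤ s j * (j + 1) := Nat.mul_le_mul_left _ (by omega)
          omega
        · rw [Finsupp.notMem_support_iff.1 hj]
          omega
  have hGu : ∀ (p : ℕ) [Fact p.Prime], ¬ p ∣ 2 → ∀ v : Fin (n + 1) → ℤ, GoodP 2 v p ↔ Gu (fun j => ((v j : ℤ) : ZMod p)) := by
    intro p hF hp a
    unfold GoodP Gu
    constructor
    · rintro ⟨_, _, h3, h4⟩
      refine ⟨fun h => h3 ((ZMod.intCast_zmod_eq_zero_iff_dvd _ p).1 h), h4⟩
    · rintro ⟨h3, h4⟩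
      exact ⟨hF.out, fun h => hp (by rw [h]), fun h => h3 ((ZMod.intCast_zmod_eq_zero_iff_dvd _ p).2 h), h4⟩
  have h3p : ∀ p : ℕ, p.Prime → ¬ p ∣ 2 → 3 ≤ p := by
    intro p hp h
    have h2 := hp.two_le
    rcases Nat.lt_or_ge 2 p with h4 | h4
    · exact h4
    · exfalso
      apply h
      have : p = 2 := by omega
      rw [this]
  have hval : ∀ (s : ℕ →₀ ℕ) (p : ℕ) [Fact p.Prime], 3 ≤ p → ∀ v : Fin (n + 1) → ℤ,
      QQ (fun j => tK v p (j + 1)) s = QQ (tt p (fun j => ((v j : ℤ) : ZMod p))) s := by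
    intro s p _ h3 v
    congr 1
    funext j
    exact tK_eq h3 v j
  have hlip := fun s : ℕ →₀ ℕ => lip (fun j => 3 * n + (j + 1 : ℕ) + 1) (fun j => ((j + 1 : ℕ) : ℝ) + n + 1)
    (QQ (MvPolynomial.X : ℕ → MvPolynomial ℕ ℝ) s)
  choose Cs hCs0 hCs using hlip
  have h := H (n + 1) κ hκ 2 two_ne_zero (ℕ →₀ ℕ) S (fun p v => GoodP 2 v p) (fun s p v => QQ (fun j => tK v p (j + 1)) s)
    Cs (fun p v hg => hg.1) (by
    intro s _ p v hg
    have hF : Fact p.Prime := ⟨hg.1⟩
    have h3 : 3 ≤ p := by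
      have := hg.1.two_le
      have := hg.2.1
      omega
    have hG := (hGu p (fun h => by
      have := Nat.le_of_dvd (by norm_num) h
      omega) v).1 hg
    rw [hval s p h3 v, QQ_aeval]
    exact (hCs s (tt p (fun j => ((v j : ℤ) : ZMod p))) (yy p (fun j => ((v j : ℤ) : ZMod p))) (1 / √(p : ℝ)) (by positivity)
      (fun j => (tt_bd n hn p h3 _ hG j).1) (fun j => (tt_bd n hn p h3 _ hG j).2.1)
      (fun j => (tt_bd n hn p h3 _ hG j).2.2)).1)
    (fun p _ u => Gu u) (fun s p _ u => QQ (tt p u) s) hGu (by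
    intro s _ p hF hp v _
    exact hval s p (h3p p hF.out hp) v) (by
    intro ε' hε'
    obtain ⟨p₀, hp₀⟩ := exists_nat_ge (((n : ℝ) + 1) / ε')
    refine ⟨p₀, fun p hF hpp => ?_⟩
    have hp0 : (0 : ℝ) < p := by exact_mod_cast hF.out.pos
    have e1 : (fun w : Fin (n + 1) → ZMod p => if Gu w then (1 : ℝ) else 0) = fun w => 1 - (if Gu w then (0 : ℝ) else 1) := by
      funext w
      split_ifs <;> simp
    rw [e1, av_sub, av_one, sub_sub_cancel_left, abs_neg, abs_of_nonneg]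
    · refine (bad_av n p).trans ?_
      rw [div_le_iff₀ hp0]
      have h3 : ((n : ℝ) + 1) / ε' ≤ p := hp₀.trans (by exact_mod_cast hpp)
      rw [div_le_iff₀ hε'] at h3
      linarith
    · apply av_nonneg
      intro u
      split_ifs <;> norm_num) (fun s => ML s) (by
    intro s hs ε' hε'
    rw [hmS, hR] at hs
    obtain ⟨p₀, hp₀⟩ := lim_bd _ _ (T_lim n hn s hs) ε' hε'
    refine ⟨p₀, fun p hF hpp => ?_⟩
    exact hp₀ ⟨p, hF.out⟩ hpp) ε hε
  obtain ⟨C, X₀, h1⟩ := h
  refine ⟨C, X₀, fun k X hX c u hu => ?_⟩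
  refine le_trans ?_ (h1 k X hX c u hu)
  have hset : ∀ (v : Fin (n + 1) → ℤ) (x : ℕ), gset (fun p v => GoodP 2 v p) v x = goods 2 v x := by
    intro v x
    unfold gset goods
    rfl
  have himp : ∀ v : Fin (n + 1) → ℤ, CloseG S (fun p v => GoodP 2 v p) (fun s p v => QQ (fun j => tK v p (j + 1)) s)
      (fun s => ML s) ε X W (b ^ k) v → CloseL n ε X W (b ^ k) v := by
    intro v hv x hx hxW
    obtain ⟨k1, k2⟩ := hv x hx hxW
    rw [hset] at k1 k2
    exact ⟨k1, fun e he => k2 e ((hmS e).2 (by rw [hR]; exact he))⟩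
  have hw : ∀ g : Fin (n + 1) → Fin k → ℕ, 0 ≤ ∏ j, wt (u j) (g j) := fun g => prod_nonneg fun j _ => wt_nonneg (hu j) _
  have hU := PrV_unionA b k u hw ({()} : Finset Unit)
    (fun g => ¬ CloseL n ε X W (b ^ k) (fun j => c j + κ j * (dval b (g j) : ℕ)))
    (fun _ g => ¬ CloseG S (fun p v => GoodP 2 v p) (fun s p v => QQ (fun j => tK v p (j + 1)) s)
      (fun s => ML s) ε X W (b ^ k) (fun j => c j + κ j * (dval b (g j) : ℕ)))
    (fun g hg => ⟨(), mem_singleton_self _, fun h => hg (himp _ h)⟩)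
  rw [sum_singleton] at hU
  exact hU

end Pool.Agent.R318.LP
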